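import Mathlib

/-!
# Project CD (MP_a41ee4_co): a strong d-step theorem for circuit walks. Definitions.

`c k`, `k ∈ κ`, are linear forms on the vector space `V` over an ordered field `K`, `r k` right-hand sides.
-/

set_option autoImplicit false

namespace Pool.Agent.Helper4.CD

open Module

section

variable {K : Type} [Field K] [LinearOrder K] {V : Type} [AddCommGroup V] [Module K V] {κ : Type}

/-- The polyhedron `{x : c k x ≥ r k for all k}`. -/
def Poly (c : κ → Dual K V) (r : κ → K) : Set V := {x | ∀ k, r k ≤ c k x}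

/-- Circuits: nonzero vectors `g` with inclusion-minimal support `{k : c k g ≠ 0}` (any scaling). -/
def IsCircuit (c : κ → Dual K V) (g : V) : Prop :=
  g ≠ 0 ∧ ∀ x : V, x ≠ 0 → (∀ k, c k g = 0 → c k x = 0) → ∀ k, c k x = 0 → c k g = 0

/-- A circuit step of maximal length from `x` to `y`. -/
def Step (c : κ → Dual K V) (r : κ → K) (x y : V) : Prop :=
  ∃ (g : V) (α : K), IsCircuit c g ∧ 0 < α ∧ y = x + α • g ∧ y ∈ Poly c r ∧
    ∀ β : K, α < β → x + β • g ∉ Poly c r

/-- A circuit walk of length `n` from `u` to `v`. -/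
def Walk (c : κ → Dual K V) (r : κ → K) (n : ℕ) (u v : V) : Prop :=
  ∃ z : ℕ → V, z 0 = u ∧ z n = v ∧ u ∈ Poly c r ∧ ∀ i < n, Step c r (z i) (z (i + 1))

/-- A circuit walk of length `n` from `u` to `v` such that the `i`-th step enters a facet (number `h i`) which
contains all later points of the walk (so it is a facet through `v`, and it is never left). -/
def KeepWalk (c : κ → Dual K V) (r : κ → K) (n : ℕ) (u v : V) : Prop :=
  ∃ (z : ℕ → V) (h : Fin n → κ), z 0 = u ∧ z n = v ∧ u ∈ Poly c r ∧
    ∀ i : Fin n, Step c r (z i) (z (i + 1)) ∧ r (h i) < c (h i) (z i) ∧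
      ∀ l : ℕ, (i : ℕ) < l → l ≤ n → c (h i) (z l) = r (h i)

/-- The right-hand sides of a spindle with apices `u`, `v`: every row is tight at `u` or at `v`. -/
def rhs (c : κ → Dual K V) (u v : V) : κ → K := fun k => min (c k u) (c k v)

/-- `{x : c k x ≥ min (c k u) (c k v)}` is a spindle with apices `u`, `v`: every inequality is tight at exactly one
of `u`, `v`, and `u` and `v` are vertices (the rows tight there have trivial common kernel). -/
structure Spindle (c : κ → Dual K V) (u v : V) : Prop where
  ne : ∀ k, c k u ≠ c k v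
  vu : ∀ x, (∀ k, c k u < c k v → c k x = 0) → x = 0
  vv : ∀ x, (∀ k, c k v < c k u → c k x = 0) → x = 0

/-- `x` is a vertex of the polyhedron. -/
def IsVertex (c : κ → Dual K V) (r : κ → K) (x : V) : Prop :=
  x ∈ Poly c r ∧ ∀ y, (∀ k, c k x = r k → c k y = 0) → y = 0

/-- Two vertices `u`, `v` which do not lie on a common facet. -/
structure Pair (c : κ → Dual K V) (r : κ → K) (u v : V) : Prop where
  vu : IsVertex c r u
  vv : IsVertex c r v
  nb : ∀ k, ¬ (c k u = r k ∧ c k v = r k)

/-- The set of rows which are tight neither at `u` nor at `v`. -/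
def Nei (c : κ → Dual K V) (r : κ → K) (u v : V) : Set κ := {k | r k < c k u ∧ r k < c k v}

/-! ## Auxiliary notions -/

/-- A traced walk: positions `z`, directions `g`, blocking rows `h`; the steps may have length `0`. -/
structure Trace (c : κ → Dual K V) (r : κ → K) (n : ℕ) (z g : ℕ → V) (h : ℕ → κ) : Prop where
  poly : ∀ i ≤ n, z i ∈ Poly c r
  circ : ∀ i < n, IsCircuit c (g i)
  neg : ∀ i < n, c (h i) (g i) < 0
  hit : ∀ i < n, c (h i) (z (i + 1)) = r (h i)
  step : ∀ i < n, ∃ α : K, 0 ≤ α ∧ z (i + 1) = z i + α • g i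

/-- A lazy walk: at time `i` nothing happens, or (`act i`) a circuit step of length `≥ 0` blocked by row `h i`. -/
structure Lazy (c : κ → Dual K V) (r : κ → K) (n : ℕ) (act : ℕ → Prop) (z g : ℕ → V) (h : ℕ → κ) : Prop where
  poly : ∀ i ≤ n, z i ∈ Poly c r
  idle : ∀ i < n, ¬ act i → z (i + 1) = z i
  circ : ∀ i < n, act i → IsCircuit c (g i)
  neg : ∀ i < n, act i → c (h i) (g i) < 0
  hit : ∀ i < n, act i → c (h i) (z (i + 1)) = r (h i)
  step : ∀ i < n, act i → ∃ α : K, 0 ≤ α ∧ z (i + 1) = z i + α • g i

/-- The lifted rows on `V × W`: `c k + ε τ k` (`k ∈ κ`) and `f m` (`m ∈ M`). -/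
def lift {W M : Type} [AddCommGroup W] [Module K W] (c : κ → Dual K V) (f : M → Dual K W) (τ : κ → Dual K W)
    (ε : K) : κ ⊕ M → Dual K (V × W)
  | Sum.inl k => (c k).comp (LinearMap.fst K V W) + ε • (τ k).comp (LinearMap.snd K V W)
  | Sum.inr m => (f m).comp (LinearMap.snd K V W)

open Classical in
/-- The lifted right-hand sides: rows in `E ⊆ κ` keep `r k`, every other row is tight at `u'` or at `v'`. -/
noncomputable def liftR {W M : Type} [AddCommGroup W] [Module K W] (c : κ → Dual K V) (f : M → Dual K W)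
    (τ : κ → Dual K W) (ε : K) (r : κ → K) (E : Set κ) (u' v' : V × W) : κ ⊕ M → K
  | Sum.inl k => if k ∈ E then r k else min (lift c f τ ε (Sum.inl k) u') (lift c f τ ε (Sum.inl k) v')
  | Sum.inr m => min (lift c f τ ε (Sum.inr m) u') (lift c f τ ε (Sum.inr m) v')

end

/-! ## The main statements -/

/-- The circuit d-step bound (complementary form): a spindle with exactly `2 D` facets in `K^D` has circuit length
at most `D`. (A spindle in `K^D` has at least `D` facets at each apex, so here exactly `D` at each.) -/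
def DStep (K : Type) [Field K] [LinearOrder K] : Prop :=
  ∀ (D : ℕ) (c : Fin (2 * D) → Dual K (Fin D → K)) (u v : Fin D → K), Spindle c u v →
    ∃ n ≤ D, Walk c (rhs c u v) n u v

/-- Its asymptotic weakening: for every `m` there is some `D ≥ m` for which the bound `(1 + 1/m) D` holds. -/
def AsymDStep (K : Type) [Field K] [LinearOrder K] : Prop :=
  ∀ m : ℕ, ∃ D ≥ m, ∀ (c : Fin (2 * D) → Dual K (Fin D → K)) (u v : Fin D → K), Spindle c u v →
    ∃ n, m * n ≤ (m + 1) * D ∧ Walk c (rhs c u v) n u v

/-- Every spindle in `K^d`, with any number of facets, has circuit length at most `d`. -/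
def SpindleBound (K : Type) [Field K] [LinearOrder K] : Prop :=
  ∀ (d f : ℕ) (c : Fin f → Dual K (Fin d → K)) (u v : Fin d → K), Spindle c u v →
    ∃ n ≤ d, Walk c (rhs c u v) n u v

/-- Every spindle in `K^d` has a circuit walk of length at most `d` from `u` to `v` in which every step enters a
facet through `v` that is never left afterwards. -/
def SpindleKeep (K : Type) [Field K] [LinearOrder K] : Prop :=
  ∀ (d f : ℕ) (c : Fin f → Dual K (Fin d → K)) (u v : Fin d → K), Spindle c u v →
    ∃ n ≤ d, KeepWalk c (rhs c u v) n u v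

/-- The circuit Hirsch bound `f - d` for all polyhedra given by `f` inequalities in `K^d`. -/
def Hirsch (K : Type) [Field K] [LinearOrder K] : Prop :=
  ∀ (d f : ℕ) (c : Fin f → Dual K (Fin d → K)) (r : Fin f → K) (u v : Fin d → K),
    IsVertex c r u → IsVertex c r v → ∃ n, n + d ≤ f ∧ Walk c r n u v

/-- The refined bound: dimension of the smallest face containing `u` and `v` plus the number of facets which
contain neither `u` nor `v`. -/
def RefinedHirsch (K : Type) [Field K] [LinearOrder K] : Prop :=
  ∀ (d f : ℕ) (c : Fin f → Dual K (Fin d → K)) (r : Fin f → K) (u v : Fin d → K),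
    IsVertex c r u → IsVertex c r v →
    ∃ n ≤ finrank K (⨅ k ∈ {k | c k u = r k ∧ c k v = r k}, LinearMap.ker (c k) : Submodule K (Fin d → K)) +
      Nat.card (Nei c r u v), Walk c r n u v

/-- The Hirsch bound for non-degenerate disjoint pairs with exactly `e` facets through neither vertex. -/
def HypE (K : Type) [Field K] [LinearOrder K] (e : ℕ) : Prop :=
  ∀ (D : ℕ) (c : Fin (2 * D + e) → Dual K (Fin D → K)) (r : Fin (2 * D + e) → K) (u v : Fin D → K),
    Pair c r u v → Nat.card (Nei c r u v) = e → ∃ n ≤ D + e, Walk c r n u v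

end Pool.Agent.Helper4.CD
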