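import Pool.Agent.Helper4.CD.St

set_option autoImplicit false

namespace Pool.Agent.Helper4.CD

open Module

/-- A `KeepWalk` is a `Walk`. -/
theorem KeepWalk.walk {K : Type} [Field K] [LinearOrder K] {V : Type} [AddCommGroup V] [Module K V] {κ : Type}
    {c : κ → Dual K V} {r : κ → K} {n : ℕ} {u v : V} (h : KeepWalk c r n u v) : Walk c r n u v := by
  obtain ⟨z, h, h0, h1, h2, h3⟩ := h
  exact ⟨z, h0, h1, h2, fun i hi => (h3 ⟨i, hi⟩).1⟩

/-- A spindle is a pair with no row missing both apices. -/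
theorem Spindle.pair {K : Type} [Field K] [LinearOrder K] {V : Type} [AddCommGroup V] [Module K V] {κ : Type}
    {c : κ → Dual K V} {u v : V} (h : Spindle c u v) : Pair c (rhs c u v) u v ∧ Nei c (rhs c u v) u v = ∅ := by
  refine ⟨⟨⟨fun k => min_le_left _ _, fun y hy => h.vu y fun k hk => hy k (min_eq_left hk.le).symm⟩,
    ⟨fun k => min_le_right _ _, fun y hy => h.vv y fun k hk => hy k (min_eq_right hk.le).symm⟩, ?_⟩, ?_⟩
  · rintro k ⟨h1, h2⟩
    exact h.ne k (h1.trans h2.symm)
  · ext k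
    simp only [Nei, rhs, Set.mem_setOf_eq, Set.mem_empty_iff_false, iff_false, not_and]
    intro h1 h2
    rcases min_choice (c k u) (c k v) with h3 | h3
    · rw [h3] at h1; exact lt_irrefl _ h1
    · rw [h3] at h2; exact lt_irrefl _ h2

/-- Conversely. -/
theorem Pair.spindle {K : Type} [Field K] [LinearOrder K] {V : Type} [AddCommGroup V] [Module K V] {κ : Type}
    {c : κ → Dual K V} {r : κ → K} {u v : V} (h : Pair c r u v) (hN : Nei c r u v = ∅) :
    Spindle c u v ∧ r = rhs c u v := by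
  have key : ∀ k, r k = c k u ∧ c k u < c k v ∨ r k = c k v ∧ c k v < c k u := by
    intro k
    have hk : k ∉ Nei c r u v := by rw [hN]; exact Set.notMem_empty k
    rcases (h.vu.1 k).eq_or_lt with h1 | h1
    · rcases (h.vv.1 k).eq_or_lt with h2 | h2
      · exact absurd ⟨h1.symm, h2.symm⟩ (h.nb k)
      · left; exact ⟨h1, h1 ▸ h2⟩
    · rcases (h.vv.1 k).eq_or_lt with h2 | h2
      · right; exact ⟨h2, h2 ▸ h1⟩
      · exact absurd ⟨h1, h2⟩ hk
  refine ⟨⟨fun k => ?_, fun x hx => h.vu.2 x fun k hk => ?_, fun x hx => h.vv.2 x fun k hk => ?_⟩, ?_⟩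
  · rcases key k with ⟨_, h2⟩ | ⟨_, h2⟩
    · exact h2.ne
    · exact h2.ne'
  · rcases key k with ⟨_, h2⟩ | ⟨h1, h2⟩
    · exact hx k h2
    · rw [h1] at hk; exact absurd hk h2.ne'
  · rcases key k with ⟨h1, h2⟩ | ⟨_, h2⟩
    · rw [h1] at hk; exact absurd hk h2.ne'
    · exact hx k h2
  · funext k
    rcases key k with ⟨h1, h2⟩ | ⟨h1, h2⟩
    · rw [h1]; exact (min_eq_left h2.le).symm
    · rw [h1]; exact (min_eq_right h2.le).symm

/-- The complementary form of the circuit d-step bound, its asymptotic weakening, the spindle bound and the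
non-revisiting form for spindles are equivalent. -/
theorem hTFAE (h1 : StCORE) (h2 : StPRB) (K : Type) [Field K] [LinearOrder K] [IsStrictOrderedRing K] :
    List.TFAE [AsymDStep K, DStep K, SpindleBound K, SpindleKeep K] := by
  tfae_have 1 → 2 := h2 K
  tfae_have 2 → 4 := by
    intro hD d f c u v hs
    have hyp : HypE K 0 := by
      intro D c' r' u' v' hp hN
      have hN' : Nei c' r' u' v' = ∅ := by
        rw [Nat.card_eq_zero] at hN
        rcases hN with hN | hN
        · exact Set.isEmpty_coe_sort.1 hN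
        · exact absurd (Set.toFinite (Nei c' r' u' v')) (fun h => hN.not_finite h)
      obtain ⟨hs', rfl⟩ := hp.spindle hN'
      exact hD D c' u' v' hs'
    obtain ⟨hp, hN⟩ := hs.pair
    obtain ⟨m, hm, _, hk⟩ := h1 K 0 hyp (Fin d → K) (Fin f) c (rhs c u v) u v hp (by rw [hN]; simp)
    refine ⟨m, ?_, hk rfl⟩
    simpa using hm
  tfae_have 4 → 3 := by
    intro h d f c u v hs
    obtain ⟨n, hn, hw⟩ := h d f c u v hs
    exact ⟨n, hn, hw.walk⟩
  tfae_have 3 → 2 := fun h D c u v hs => h D (2 * D) c u v hs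
  tfae_have 2 → 1 := by
    intro h m
    refine ⟨m, le_rfl, fun c u v hs => ?_⟩
    obtain ⟨n, hn, hw⟩ := h m c u v hs
    exact ⟨n, by nlinarith, hw⟩
  tfae_finish

/-- The circuit Hirsch bound is equivalent to its refined form. -/
theorem hREF (h1 : StCORE) (h2 : StFC) (h3 : StFD) (K : Type) [Field K] [LinearOrder K] [IsStrictOrderedRing K] :
    Hirsch K ↔ RefinedHirsch K := by
  refine ⟨fun h => h2 K ?_, h3 K⟩
  intro V _ _ _ κ _ c r u v hp
  have hyp : HypE K (Nat.card (Nei c r u v)) := by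
    intro D c' r' u' v' hp' _
    obtain ⟨n, hn, hw⟩ := h D _ c' r' u' v' hp'.vu hp'.vv
    exact ⟨n, by omega, hw⟩
  obtain ⟨m, hm, hw, _⟩ := h1 K _ hyp V κ c r u v hp rfl
  exact ⟨m, hm, hw⟩

end Pool.Agent.Helper4.CD
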