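import Pool.Agent.Helper4.CD.St2
import Pool.Agent.Helper4.CD.M_FIN

set_option autoImplicit false

namespace Pool.Agent.Helper4.CD

open Module

private lemma lift_inl {K : Type} [Field K] {V W : Type} [AddCommGroup V] [Module K V] [AddCommGroup W] [Module K W]
    {κ M : Type} (c : κ → Dual K V) (f : M → Dual K W) (τ : κ → Dual K W) (ε : K) (k : κ) (x : V × W) :
    lift c f τ ε (Sum.inl k) x = c k x.1 + ε * τ k x.2 := by
  simp [lift]

private lemma lift_inr {K : Type} [Field K] {V W : Type} [AddCommGroup V] [Module K V] [AddCommGroup W] [Module K W]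
    {κ M : Type} (c : κ → Dual K V) (f : M → Dual K W) (τ : κ → Dual K W) (ε : K) (m : M) (x : V × W) :
    lift c f τ ε (Sum.inr m) x = f m x.2 := by
  simp [lift]

private lemma span_le {K : Type} [Field K] {W : Type} [AddCommGroup W] [Module K W] (n : ℕ) (g : ℕ → W)
    [DecidablePred fun i => g i ≠ 0]
    (hs : Submodule.span K (g '' {i | i < n}) = ⊤) :
    finrank K W ≤ ((Finset.range n).filter (fun i => g i ≠ 0)).card := by
  classical
  set S := (Finset.range n).filter (fun i => g i ≠ 0) with hS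
  have h1 : Submodule.span K ((S.image g : Finset W) : Set W) = ⊤ := by
    rw [eq_top_iff, ← hs, Submodule.span_le]
    rintro _ ⟨i, hi, rfl⟩
    by_cases h0 : g i = 0
    · rw [h0]
      exact Submodule.zero_mem _
    · apply Submodule.subset_span
      rw [Finset.coe_image]
      exact ⟨i, by simpa [hS] using ⟨hi, h0⟩, rfl⟩
  have h2 := finrank_span_finset_le_card (R := K) (S.image g)
  rw [Set.finrank, h1, finrank_top] at h2
  exact h2.trans Finset.card_image_le

theorem hCOREB (h1 : StTR) (h2 : StAVO) (h3 : StGEN) (h4 : StLIM) (h5 : StLIFTB) (h6 : StTPB) : StCOREB := by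
  classical
  intro K _ _ _ hyp V _ _ _ κ _ c u v hs hb
  obtain ⟨hp, hNe⟩ := hs.pair
  have hN : Nat.card (Nei c (rhs c u v) u v) = 0 := by rw [hNe]; simp
  obtain ⟨r, hr⟩ : ∃ r, r = rhs c u v := ⟨_, rfl⟩
  rw [← hr] at hp hNe hN
  rw [← hr]
  obtain ⟨e, he0⟩ : ∃ e : ℕ, e = 0 := ⟨0, rfl⟩
  have key : ∃ m ≤ finrank K V + e, Walk c r m u v ∧ (e = 0 → KeepWalk c r m u v) := ?_
  · obtain ⟨m, hm, _, hk⟩ := key
    exact ⟨m, by omega, hk he0⟩
  rw [← he0] at hN
  by_cases hκ : IsEmpty κ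
  · have huv : u = v := sub_eq_zero.1 (hp.vu.2 (u - v) (fun k => (hκ.false k).elim))
    subst huv
    exact ⟨0, Nat.zero_le _, ⟨fun _ => u, rfl, rfl, hp.vu.1, fun i hi => absurd hi (Nat.not_lt_zero i)⟩,
      fun _ => ⟨fun _ => u, Fin.elim0, rfl, rfl, hp.vu.1, fun i => i.elim0⟩⟩
  haveI : Nonempty κ := not_isEmpty_iff.1 hκ
  obtain ⟨W, iW1, iW2, iW3, M, iM, f, τ, a, b, B, hf, hfb, hfab, hB, hcard, δ₀, hδ₀, hL⟩ := h5 K V κ c r u v hp
  have hc : ∀ x, (∀ k, c k x = 0) → x = 0 := fun x hx => hp.vu.2 x (fun k _ => hx k)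
  refine h4 K V W κ M c r f τ u v (finrank K V + finrank K W + e) (finrank K V + e) B (e = 0) hc hf ?_
  intro δ hδ
  obtain ⟨δ₁, hδ₁, hδ₁0, hδ₁δ⟩ : ∃ δ₁ : K, 0 < δ₁ ∧ δ₁ ≤ δ₀ ∧ δ₁ ≤ δ / 2 :=
    ⟨min δ₀ (δ / 2), lt_min hδ₀ (half_pos hδ), min_le_left _ _, min_le_right _ _⟩
  obtain ⟨ε, hε, hεδ₁, hεB⟩ : ∃ ε : K, 0 < ε ∧ ε < δ₁ ∧ ε * B < δ₁ := by
    refine ⟨δ₁ / (B + 2), by positivity, ?_, ?_⟩
    · rw [div_lt_iff₀ (by linarith)]
      nlinarith
    · rw [div_mul_eq_mul_div, div_lt_iff₀ (by linarith)]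
      nlinarith
  have hC : ∀ x, (∀ s, lift c f τ ε s x = 0) → x = 0 := by
    intro x hx
    have hx2 : x.2 = 0 := hf _ (fun m => by rw [← lift_inr c f τ ε]; exact hx _)
    have hx1 : x.1 = 0 := hc _ (fun k => by
      have := hx (Sum.inl k)
      rw [lift_inl, hx2, map_zero, mul_zero, add_zero] at this
      exact this)
    exact Prod.ext hx1 hx2
  -- the generic perturbation
  let Bs : Set (κ ⊕ M) := {s | (∃ k, s = Sum.inl k ∧ c k v = r k) ∨ (∃ m, s = Sum.inr m ∧ f m b < f m a)}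
  let θ : κ ⊕ M → K := fun s => Sum.elim
    (fun k => if k ∈ Nei c r u v then r k - lift c f τ ε (Sum.inl k) (u, a) else 0) (fun _ => 0) s
  obtain ⟨F, hF⟩ := h3 K (V × W) (κ ⊕ M) (lift c f τ ε) Bs θ (finrank K V + finrank K W + e) hC
  let ψ : κ ⊕ M → Dual K (V × W) := fun s => Sum.elim (fun k => (c k).comp (LinearMap.fst K V W))
    (fun m => (f m).comp (LinearMap.snd K V W)) s
  obtain ⟨w, hw1, hw2⟩ := h2 K (V × W) (κ ⊕ M) ψ F ((v, b) - (u, a)) δ₁ hδ₁
  obtain ⟨v', hv'⟩ : ∃ v' : V × W, v' = (u, a) + w := ⟨_, rfl⟩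
  have hcl1 : ∀ k, |c k (v'.1 - v)| < δ₁ := by
    intro k
    have := hw1 (Sum.inl k)
    have h' : v'.1 - v = (w - ((v, b) - (u, a))).1 := by
      rw [hv']; simp only [Prod.fst_add, Prod.fst_sub]; abel
    rw [h']; exact this
  have hcl2 : ∀ m, |f m (v'.2 - b)| < δ₁ := by
    intro m
    have := hw1 (Sum.inr m)
    have h' : v'.2 - b = (w - ((v, b) - (u, a))).2 := by
      rw [hv']; simp only [Prod.snd_add, Prod.snd_sub]; abel
    rw [h']; exact this
  obtain ⟨hP, hNei, hA, hBr, hm1, hm2, hbd⟩ := hL ε v' hε (lt_of_lt_of_le hεδ₁ hδ₁0)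
    (fun k => lt_of_lt_of_le (hcl1 k) hδ₁0) (fun m => lt_of_lt_of_le (hcl2 m) hδ₁0)
  -- trichotomy of the rows
  have htri : ∀ k, k ∉ Nei c r u v → c k v ≠ r k → c k u = r k := by
    intro k hk hv
    by_contra hu
    exact hk ⟨lt_of_le_of_ne (hp.vu.1 k) (Ne.symm hu), lt_of_le_of_ne (hp.vv.1 k) (Ne.symm hv)⟩
  have hRv : ∀ k, c k v = r k → liftR c f τ ε r (Nei c r u v) (u, a) v' (Sum.inl k) =
      lift c f τ ε (Sum.inl k) v' := by
    intro k hk
    have hkN : k ∉ Nei c r u v := fun h => absurd h.2 (by rw [hk]; exact lt_irrefl _)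
    simp only [liftR, if_neg hkN]
    exact min_eq_right (hBr k hk).le
  have hRu : ∀ k, c k u = r k → liftR c f τ ε r (Nei c r u v) (u, a) v' (Sum.inl k) =
      lift c f τ ε (Sum.inl k) (u, a) := by
    intro k hk
    have hkN : k ∉ Nei c r u v := fun h => absurd h.1 (by rw [hk]; exact lt_irrefl _)
    simp only [liftR, if_neg hkN]
    exact min_eq_left (hA k hk).le
  have hRN : ∀ k, k ∈ Nei c r u v → liftR c f τ ε r (Nei c r u v) (u, a) v' (Sum.inl k) = r k := by
    intro k hk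
    simp only [liftR, if_pos hk]
  -- the walk
  obtain ⟨hsp', hreq⟩ := hP.spindle (by rw [hNei, hNe]; simp)
  have hbdd' : Bdd (lift c f τ ε) := by
    intro x hx
    have hx2 : x.2 = 0 := hfb _ (fun m => by rw [← lift_inr c f τ ε]; exact hx _)
    have hx1 : x.1 = 0 := hb _ (fun k => by
      have := hx (Sum.inl k)
      rw [lift_inl, hx2, map_zero, mul_zero, add_zero] at this
      exact this)
    exact Prod.ext hx1 hx2
  obtain ⟨n, hn, hwalk⟩ := h6 K hyp (V × W) (κ ⊕ M) (lift c f τ ε) (u, a) v' hsp' hbdd'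
    (by rw [Nat.card_sum, hcard, finrank_prod, hN, he0]; omega)
  rw [← hreq] at hwalk
  rw [finrank_prod] at hn
  replace hn : n ≤ finrank K V + finrank K W + e := by omega
  obtain ⟨z, g, h, hz0, hzn, htr⟩ := h1 K (V × W) (κ ⊕ M) _ _ n (u, a) v' hwalk
  -- genericity
  have hR1 : ∀ s ∈ Bs, liftR c f τ ε r (Nei c r u v) (u, a) v' s =
      lift c f τ ε s (u, a) + lift c f τ ε s w + θ s := by
    rintro s (⟨k, rfl, hk⟩ | ⟨m, rfl, hm⟩)
    · have hkN : k ∉ Nei c r u v := fun h => absurd h.2 (by rw [hk]; exact lt_irrefl _)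
      rw [hRv k hk, hv', map_add]
      simp only [θ, Sum.elim_inl, if_neg hkN, add_zero]
    · simp only [liftR, θ, Sum.elim_inr, add_zero]
      rw [← map_add, ← hv']
      apply min_eq_right
      rw [lift_inr, lift_inr]
      exact (hm2 m hm).le
  have hR2 : ∀ s ∉ Bs, liftR c f τ ε r (Nei c r u v) (u, a) v' s = lift c f τ ε s (u, a) + θ s := by
    rintro (k | m) hs
    · have hkv : c k v ≠ r k := fun h => hs (Or.inl ⟨k, rfl, h⟩)
      by_cases hkN : k ∈ Nei c r u v
      · rw [hRN k hkN]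
        simp only [θ, Sum.elim_inl, if_pos hkN]
        ring
      · rw [hRu k (htri k hkN hkv)]
        simp only [θ, Sum.elim_inl, if_neg hkN, add_zero]
    · have hm : f m a < f m b := by
        rcases lt_trichotomy (f m a) (f m b) with h | h | h
        · exact h
        · exact absurd h (hfab m)
        · exact absurd (Or.inr ⟨m, rfl, h⟩) hs
      simp only [liftR, θ, Sum.elim_inr, add_zero]
      apply min_eq_left
      rw [lift_inr, lift_inr]
      exact (hm1 m hm).le
  obtain ⟨hspan, hkeep⟩ := hF (u, a) w _ hR1 hR2 hw2 n hn z g h htr hz0 (by rw [hzn, hv'])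
  -- counting
  have hspan2 : Submodule.span K ((fun i => (g i).2) '' {i | i < n}) = ⊤ := by
    have := congrArg (Submodule.map (LinearMap.snd K V W)) hspan
    rw [Submodule.map_span, Submodule.map_top, LinearMap.range_eq_top.2 Prod.snd_surjective,
      Set.image_image] at this
    exact this
  have hmix := span_le n (fun i => (g i).2) hspan2
  have hall := span_le n g hspan
  have hall' : finrank K (V × W) ≤ n :=
    hall.trans ((Finset.card_filter_le _ _).trans (by rw [Finset.card_range]))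
  rw [finrank_prod] at hall'
  have hsplit : ((Finset.range n).filter (fun i => (g i).2 = 0)).card +
      ((Finset.range n).filter (fun i => (g i).2 ≠ 0)).card = n := by
    have := Finset.card_filter_add_card_filter_not (s := Finset.range n) (fun i => (g i).2 = 0)
    rw [Finset.card_range] at this
    exact this
  have hpure : Nat.card {i : ℕ // i < n ∧ (g i).2 = 0} = ((Finset.range n).filter (fun i => (g i).2 = 0)).card :=
    Nat.subtype_card _ (fun i => by simp)
  have hdδ : δ₁ < δ := lt_of_le_of_lt hδ₁δ (half_lt_self hδ)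
  refine ⟨ε, n, liftR c f τ ε r (Nei c r u v) (u, a) v', z, g, h, hε, hεδ₁.trans hdδ, hn, ?_, by rw [hz0], ?_,
    fun i hi k => hbd (z i) (htr.poly i hi) k, ?_, htr, ?_⟩
  · intro k
    have hτ : ∀ y ∈ Poly (lift c f τ ε) (liftR c f τ ε r (Nei c r u v) (u, a) v'), |ε * τ k y.2| < δ₁ := by
      intro y hy
      rw [abs_mul, abs_of_pos hε]
      exact lt_of_le_of_lt (mul_le_mul_of_nonneg_left (hbd y hy k) hε.le) hεB
    by_cases hkN : k ∈ Nei c r u v
    · rw [hRN k hkN, sub_self, abs_zero]; exact hδ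
    · by_cases hkv : c k v = r k
      · rw [hRv k hkv, lift_inl, ← hkv]
        have e1 : c k v'.1 + ε * τ k v'.2 - c k v = c k (v'.1 - v) + ε * τ k v'.2 := by
          rw [map_sub]; ring
        rw [e1]
        calc |c k (v'.1 - v) + ε * τ k v'.2| ≤ |c k (v'.1 - v)| + |ε * τ k v'.2| := abs_add_le _ _
          _ < δ₁ + δ₁ := add_lt_add (hcl1 k) (hτ v' hP.vv.1)
          _ ≤ δ := by linarith
      · rw [hRu k (htri k hkN hkv), lift_inl, htri k hkN hkv]
        have e1 : r k + ε * τ k (u, a).2 - r k = ε * τ k (u, a).2 := by ring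
        rw [e1]
        exact (hτ (u, a) hP.vu.1).trans hdδ
  · intro k
    rw [hzn]; exact (hcl1 k).trans hdδ
  · rw [hpure]; omega
  · intro he i l hil hln
    exact hkeep (by rw [finrank_prod]; omega) i l hil hln

end Pool.Agent.Helper4.CD
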