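import Pool.Agent.Helper4.CD.St2

set_option autoImplicit false

namespace Pool.Agent.Helper4.CD

open Module

section

variable {K : Type} [Field K] [LinearOrder K] {V : Type} [AddCommGroup V] [Module K V] {κ : Type}

/-- The point `u` of the polyhedron lies on no facet through the vertex `v`, and has smaller slack than `v` in every
inequality which is not tight at `v`. -/
structure Near (c : κ → Dual K V) (r : κ → K) (u v : V) : Prop where
  pu : u ∈ Poly c r
  vv : IsVertex c r v
  away : ∀ k, c k v = r k → r k < c k u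
  near : ∀ k, c k v ≠ r k → c k u < c k v

/-- A circuit walk from `u` to `v` such that the `i`-th step enters a facet (number `h i`) which contains all later
points (hence a facet through `v`), no point of the walk is farther than `u` from a facet through `v`, and no point
has smaller slack than `u` in another inequality. -/
def StrongWalk (c : κ → Dual K V) (r : κ → K) (n : ℕ) (u v : V) : Prop :=
  ∃ (z : ℕ → V) (h : Fin n → κ), z 0 = u ∧ z n = v ∧
    (∀ i ≤ n, z i ∈ Poly c r ∧ (∀ k, c k v = r k → c k (z i) ≤ c k u) ∧ ∀ k, c k v ≠ r k → c k u ≤ c k (z i)) ∧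
    ∀ i : Fin n, Step c r (z i) (z (i + 1)) ∧ r (h i) < c (h i) (z i) ∧
      ∀ l : ℕ, (i : ℕ) < l → l ≤ n → c (h i) (z l) = r (h i)

end

/-- From bounded spindles to arbitrary polyhedra and starting points. -/
theorem near_of_keep (K : Type) [Field K] [LinearOrder K] [IsStrictOrderedRing K] (V : Type) [AddCommGroup V]
    [Module K V] (κ : Type) [Finite κ] (c : κ → Dual K V) (r : κ → K) (u v : V) (N : ℕ) (hN : Near c r u v)
    (H : ∀ (κ' : Type) [Finite κ'] (c' : κ' → Dual K V), Spindle c' u v → Bdd c' →
      ∃ m ≤ N, KeepWalk c' (rhs c' u v) m u v) :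
    ∃ m ≤ N, StrongWalk c r m u v := by
  classical
  let c' : κ ⊕ {k // c k v = r k} → Dual K V := fun s => Sum.elim c (fun k => -(c k.1)) s
  have hinl : ∀ k, c' (Sum.inl k) = c k := fun k => rfl
  have hinr : ∀ k, c' (Sum.inr k) = -(c k.1) := fun k => rfl
  have hin : ∀ (k : {k // c k v = r k}) (x : V), c' (Sum.inr k) x = -(c k.1 x) := fun k x => rfl
  have hS : Spindle c' u v := by
    refine ⟨?_, fun x hx => ?_, fun x hx => ?_⟩
    · rintro (k | k)
      · by_cases hk : c k v = r k
        · rw [hinl, hk]; exact (hN.away k hk).ne'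
        · rw [hinl]; exact (hN.near k hk).ne
      · rw [hin, hin]
        intro h
        exact (hN.away k.1 k.2).ne' (by rw [← k.2]; exact neg_injective h)
    · refine hN.vv.2 x fun k hk => ?_
      have h1 := hx (Sum.inr ⟨k, hk⟩) (by
        rw [hin, hin]
        have := hN.away k hk
        simp only
        rw [hk]
        linarith)
      rw [hin] at h1
      exact neg_eq_zero.1 h1
    · refine hN.vv.2 x fun k hk => ?_
      have h1 := hx (Sum.inl k) (by rw [hinl, hk]; exact hN.away k hk)
      exact h1
  have hB : Bdd c' := by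
    intro x hx
    refine hN.vv.2 x fun k hk => ?_
    have h1 := hx (Sum.inl k)
    have h2 := hx (Sum.inr ⟨k, hk⟩)
    rw [hinl] at h1
    rw [hin] at h2
    exact le_antisymm (by simpa using h2) h1
  obtain ⟨m, hm, z, h, hz0, hzm, hu, hstep⟩ := H _ c' hS hB
  -- all points are in the smaller polyhedron
  have hP : ∀ i ≤ m, z i ∈ Poly c' (rhs c' u v) := by
    intro i hi
    rcases Nat.eq_zero_or_pos i with h0 | h0
    · rw [h0, hz0]; exact hu
    · obtain ⟨j, rfl⟩ : ∃ j, i = j + 1 := ⟨i - 1, by omega⟩
      obtain ⟨⟨g, α, _, _, _, h4, _⟩, _⟩ := hstep ⟨j, by omega⟩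
      exact h4
  have hsub : ∀ x, x ∈ Poly c' (rhs c' u v) → x ∈ Poly c r ∧ (∀ k, c k v = r k → c k x ≤ c k u) ∧
      ∀ k, c k v ≠ r k → c k u ≤ c k x := by
    intro x hx
    refine ⟨fun k => ?_, fun k hk => ?_, fun k hk => ?_⟩
    · have h1 := hx (Sum.inl k)
      have h2 : r k ≤ rhs c' u v (Sum.inl k) := le_min (hN.pu k) (hN.vv.1 k)
      exact h2.trans h1
    · have h1 := hx (Sum.inr ⟨k, hk⟩)
      have h2 : rhs c' u v (Sum.inr ⟨k, hk⟩) = -(c k u) := by
        simp only [rhs, hin]
        apply min_eq_left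
        have := hN.away k hk
        rw [hk]; linarith
      rw [h2, hin] at h1
      simp only at h1
      linarith
    · have h1 := hx (Sum.inl k)
      have h2 : rhs c' u v (Sum.inl k) = c k u := min_eq_left (hN.near k hk).le
      rw [h2] at h1
      exact h1
  -- the blocking rows
  have hrow : ∀ i : Fin m, ∃ k, h i = Sum.inl k ∧ c k v = r k := by
    intro i
    have h1 := (hstep i).2.2 m i.2 le_rfl
    rw [hzm] at h1
    rcases hh : h i with k | k
    · refine ⟨k, rfl, ?_⟩
      by_contra hk
      rw [hh, hinl] at h1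
      have h2 : rhs c' u v (Sum.inl k) = c k u := min_eq_left (hN.near k hk).le
      rw [h2] at h1
      exact (hN.near k hk).ne' h1
    · exfalso
      rw [hh, hin] at h1
      have h2 : rhs c' u v (Sum.inr k) = -(c k.1 u) := by
        simp only [rhs, hin]
        apply min_eq_left
        have := hN.away k.1 k.2
        rw [k.2]; linarith
      rw [h2] at h1
      have := hN.away k.1 k.2
      rw [← k.2] at this
      linarith
  choose k hk1 hk2 using hrow
  have hrk : ∀ i, rhs c' u v (h i) = r (k i) := by
    intro i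
    rw [hk1 i]
    have : rhs c' u v (Sum.inl (k i)) = c (k i) v :=
      min_eq_right (by rw [hinl, hk2 i]; exact (hN.away _ (hk2 i)).le)
    rw [this, hk2 i]
  have hck : ∀ i x, c' (h i) x = c (k i) x := fun i x => by rw [hk1 i, hinl]
  have hcirc : ∀ g, IsCircuit c' g → IsCircuit c g := by
    intro g hg
    refine ⟨hg.1, fun x hx hs j hj => ?_⟩
    exact hg.2 x hx (by
      rintro (l | l) hl
      · exact hs l hl
      · rw [hin] at hl ⊢
        rw [hs l.1 (neg_eq_zero.1 hl), neg_zero]) (Sum.inl j) hj
  refine ⟨m, hm, z, k, hz0, hzm, fun i hi => hsub _ (hP i hi), fun i => ?_⟩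
  obtain ⟨⟨g, α, h1, h2, h3, h4, _⟩, h6, h7⟩ := hstep i
  rw [hrk, hck] at h6
  have h8 : c (k i) (z (i + 1)) = r (k i) := by
    have := h7 (i + 1) (Nat.lt_succ_self _) i.2
    rw [hrk, hck] at this
    exact this
  refine ⟨⟨g, α, hcirc g h1, h2, h3, (hsub _ h4).1, fun β hβ hin' => ?_⟩, h6, fun l hl hlm => ?_⟩
  · have h9 := hin' (k i)
    rw [h3] at h8
    simp only [map_add, map_smul, smul_eq_mul] at h8 h9
    have h10 : c (k i) g < 0 := by
      by_contra hge
      push Not at hge
      have := mul_nonneg h2.le hge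
      linarith
    have h11 : (β - α) * c (k i) g < 0 := mul_neg_of_pos_of_neg (sub_pos.2 hβ) h10
    linarith [sub_mul β α (c (k i) g)]
  · have := h7 l hl hlm
    rw [hrk, hck] at this
    exact this

end Pool.Agent.Helper4.CD
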