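import Pool.Agent.Helper4.CD.M_COREB
import Pool.Agent.Helper4.CD.M_NEAR

set_option autoImplicit false

namespace Pool.Agent.Helper4.CD

open Module

/-- For every polyhedron in `K^d`, every vertex `v` and every point `u` which lies on no facet through `v` and has
smaller slack than `v` in every other inequality, there is a strong circuit walk of length at most `d`. -/
def NearBound (K : Type) [Field K] [LinearOrder K] : Prop :=
  ∀ (d f : ℕ) (c : Fin f → Dual K (Fin d → K)) (r : Fin f → K) (u v : Fin d → K), Near c r u v →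
    ∃ n ≤ d, StrongWalk c r n u v

/-- A `StrongWalk` is a `Walk`. -/
theorem StrongWalk.walk {K : Type} [Field K] [LinearOrder K] {V : Type} [AddCommGroup V] [Module K V] {κ : Type}
    {c : κ → Dual K V} {r : κ → K} {n : ℕ} {u v : V} (h : StrongWalk c r n u v) : Walk c r n u v := by
  obtain ⟨z, h, h0, h1, h2, h3⟩ := h
  refine ⟨z, h0, h1, ?_, fun i hi => (h3 ⟨i, hi⟩).1⟩
  rw [← h0]
  exact (h2 0 (Nat.zero_le _)).1

/-- The apices of a spindle. -/
theorem Spindle.near {K : Type} [Field K] [LinearOrder K] {V : Type} [AddCommGroup V] [Module K V] {κ : Type}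
    {c : κ → Dual K V} {u v : V} (h : Spindle c u v) : Near c (rhs c u v) u v := by
  refine ⟨h.pair.1.vu.1, h.pair.1.vv, fun k hk => ?_, fun k hk => ?_⟩
  · refine lt_of_le_of_ne (min_le_left _ _) fun h1 => h.ne k (h1.symm.trans hk.symm)
  · have h1 : rhs c u v k < c k v := lt_of_le_of_ne (min_le_right _ _) (Ne.symm hk)
    by_contra h2
    push Not at h2
    have h3 : rhs c u v k = c k v := min_eq_right h2
    exact h1.ne h3

/-- The d-step bound for bounded polyhedra with `2 D` facets, even asymptotically, is equivalent to the strong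
bound for all polyhedra. -/
theorem hMAIN (h1 : StCOREB) (h2 : StPRBB) (K : Type) [Field K] [LinearOrder K] [IsStrictOrderedRing K] :
    List.TFAE [AsymDStepB K, DStepB K, DStep K, NearBound K] := by
  tfae_have 1 → 2 := h2 K
  tfae_have 2 → 4 := by
    intro hD d f c r u v hN
    refine near_of_keep K (Fin d → K) (Fin f) c r u v d hN ?_
    intro κ' _ c' hs hb
    obtain ⟨m, hm, hk⟩ := h1 K hD (Fin d → K) κ' c' u v hs hb
    refine ⟨m, ?_, hk⟩
    simpa using hm
  tfae_have 4 → 3 := by
    intro h D c u v hs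
    obtain ⟨n, hn, hw⟩ := h D (2 * D) c (rhs c u v) u v hs.near
    exact ⟨n, hn, hw.walk⟩
  tfae_have 3 → 2 := fun h D c u v hs _ => h D c u v hs
  tfae_have 2 → 1 := by
    intro h m
    refine ⟨m, le_rfl, fun c u v hs hb => ?_⟩
    obtain ⟨n, hn, hw⟩ := h m c u v hs hb
    exact ⟨n, by nlinarith, hw⟩
  tfae_finish

end Pool.Agent.Helper4.CD
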