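import Pool.Agent.Helper4.CD.St2

/-!
# Project CD (MP_a41ee4_co), module PRAB: the product of two bounded spindles (adapted from module PRA by helper99)
-/

set_option autoImplicit false

namespace Pool.Agent.Helper4.CDPRAB

open Pool.Agent.Helper4.CD
open Module

section transport

variable {K : Type} [Field K] [LinearOrder K] {V W : Type} [AddCommGroup V] [Module K V]
  [AddCommGroup W] [Module K W] {κ κ' : Type}

/-- the rows seen through a linear equivalence and a bijection of the index sets -/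
private def tr (φ : V ≃ₗ[K] W) (σ : κ' ≃ κ) (c : κ → Dual K W) : κ' → Dual K V :=
  fun k => (c (σ k)).comp φ.toLinearMap

private theorem tr_apply (φ : V ≃ₗ[K] W) (σ : κ' ≃ κ) (c : κ → Dual K W) (k : κ') (z : V) :
    tr φ σ c k z = c (σ k) (φ z) := rfl

private theorem tr_poly (φ : V ≃ₗ[K] W) (σ : κ' ≃ κ) (c : κ → Dual K W) (r : κ → K) (z : V) :
    z ∈ Poly (tr φ σ c) (fun k => r (σ k)) ↔ φ z ∈ Poly c r := by
  constructor
  · intro h k
    have := h (σ.symm k)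
    simp only [tr_apply, Equiv.apply_symm_apply] at this
    exact this
  · intro h k
    exact h (σ k)

private theorem tr_circ (φ : V ≃ₗ[K] W) (σ : κ' ≃ κ) (c : κ → Dual K W) (g : V)
    (h : IsCircuit (tr φ σ c) g) : IsCircuit c (φ g) := by
  obtain ⟨h0, h1⟩ := h
  refine ⟨fun h2 => h0 (φ.map_eq_zero_iff.1 h2), fun x hx hs k hk => ?_⟩
  have h2 := h1 (φ.symm x) (fun h3 => hx (φ.symm.map_eq_zero_iff.1 h3)) (fun k' hk' => ?_)
    (σ.symm k) ?_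
  · simp only [tr_apply, Equiv.apply_symm_apply] at h2
    exact h2
  · rw [tr_apply, φ.apply_symm_apply]
    exact hs _ hk'
  · rw [tr_apply, φ.apply_symm_apply, Equiv.apply_symm_apply]
    exact hk

private theorem tr_step (φ : V ≃ₗ[K] W) (σ : κ' ≃ κ) (c : κ → Dual K W) (r : κ → K) (x y : V)
    (h : Step (tr φ σ c) (fun k => r (σ k)) x y) : Step c r (φ x) (φ y) := by
  obtain ⟨g, α, h1, h2, h3, h4, h5⟩ := h
  refine ⟨φ g, α, tr_circ φ σ c g h1, h2, ?_, (tr_poly φ σ c r y).1 h4, fun β hβ h6 => ?_⟩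
  · rw [h3, map_add, map_smul]
  · apply h5 β hβ
    rw [tr_poly, map_add, map_smul]
    exact h6

private theorem tr_walk (φ : V ≃ₗ[K] W) (σ : κ' ≃ κ) (c : κ → Dual K W) (r : κ → K) (n : ℕ)
    (u v : V) (h : Walk (tr φ σ c) (fun k => r (σ k)) n u v) : Walk c r n (φ u) (φ v) := by
  obtain ⟨z, h0, h1, h2, h3⟩ := h
  exact ⟨fun i => φ (z i), congrArg φ h0, congrArg φ h1, (tr_poly φ σ c r u).1 h2,
    fun i hi => tr_step φ σ c r _ _ (h3 i hi)⟩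

private theorem tr_spindle (φ : V ≃ₗ[K] W) (σ : κ' ≃ κ) (c : κ → Dual K W) (u v : V)
    (h : Spindle c (φ u) (φ v)) : Spindle (tr φ σ c) u v := by
  refine ⟨fun k => h.ne (σ k), fun x hx => ?_, fun x hx => ?_⟩
  · refine φ.map_eq_zero_iff.1 (h.vu (φ x) fun k hk => ?_)
    have := hx (σ.symm k)
    simp only [tr_apply, Equiv.apply_symm_apply] at this
    exact this hk
  · refine φ.map_eq_zero_iff.1 (h.vv (φ x) fun k hk => ?_)
    have := hx (σ.symm k)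
    simp only [tr_apply, Equiv.apply_symm_apply] at this
    exact this hk

private theorem tr_bdd (φ : V ≃ₗ[K] W) (σ : κ' ≃ κ) (c : κ → Dual K W) (h : Bdd c) : Bdd (tr φ σ c) := by
  intro x hx
  refine φ.map_eq_zero_iff.1 (h (φ x) fun k => ?_)
  have := hx (σ.symm k)
  simp only [tr_apply, Equiv.apply_symm_apply] at this
  exact this

end transport

section product

variable {K : Type} [Field K] [LinearOrder K] {V₁ V₂ : Type} [AddCommGroup V₁] [Module K V₁]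
  [AddCommGroup V₂] [Module K V₂] {κ₁ κ₂ : Type}

/-- the rows of the product -/
private def pd (c₁ : κ₁ → Dual K V₁) (c₂ : κ₂ → Dual K V₂) : κ₁ ⊕ κ₂ → Dual K (V₁ × V₂)
  | Sum.inl k => (c₁ k).comp (LinearMap.fst K V₁ V₂)
  | Sum.inr k => (c₂ k).comp (LinearMap.snd K V₁ V₂)

private theorem pd_inl (c₁ : κ₁ → Dual K V₁) (c₂ : κ₂ → Dual K V₂) (k : κ₁) (z : V₁ × V₂) :
    pd c₁ c₂ (Sum.inl k) z = c₁ k z.1 := rfl

private theorem pd_inr (c₁ : κ₁ → Dual K V₁) (c₂ : κ₂ → Dual K V₂) (k : κ₂) (z : V₁ × V₂) :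
    pd c₁ c₂ (Sum.inr k) z = c₂ k z.2 := rfl

private theorem pd_poly (c₁ : κ₁ → Dual K V₁) (c₂ : κ₂ → Dual K V₂) (r : κ₁ ⊕ κ₂ → K)
    (z : V₁ × V₂) : z ∈ Poly (pd c₁ c₂) r ↔
      z.1 ∈ Poly c₁ (fun k => r (Sum.inl k)) ∧ z.2 ∈ Poly c₂ (fun k => r (Sum.inr k)) := by
  constructor
  · intro h
    exact ⟨fun k => h (Sum.inl k), fun k => h (Sum.inr k)⟩
  · rintro ⟨h1, h2⟩ (k | k)
    · exact h1 k
    · exact h2 k

private theorem pd_spindle (c₁ : κ₁ → Dual K V₁) (c₂ : κ₂ → Dual K V₂) (u v : V₁ × V₂)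
    (h1 : Spindle c₁ u.1 v.1) (h2 : Spindle c₂ u.2 v.2) : Spindle (pd c₁ c₂) u v := by
  refine ⟨?_, fun x hx => ?_, fun x hx => ?_⟩
  · rintro (k | k)
    · exact h1.ne k
    · exact h2.ne k
  · exact Prod.ext (h1.vu x.1 fun k hk => hx (Sum.inl k) hk) (h2.vu x.2 fun k hk => hx (Sum.inr k) hk)
  · exact Prod.ext (h1.vv x.1 fun k hk => hx (Sum.inl k) hk) (h2.vv x.2 fun k hk => hx (Sum.inr k) hk)

private theorem pd_bdd (c₁ : κ₁ → Dual K V₁) (c₂ : κ₂ → Dual K V₂) (h1 : Bdd c₁) (h2 : Bdd c₂) :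
    Bdd (pd c₁ c₂) := fun x hx => Prod.ext (h1 x.1 fun k => hx (Sum.inl k)) (h2 x.2 fun k => hx (Sum.inr k))

private theorem pd_circ (c₁ : κ₁ → Dual K V₁) (c₂ : κ₂ → Dual K V₂) (g : V₁ × V₂)
    (z2 : ∀ y : V₂, (∀ k, c₂ k y = 0) → y = 0) (h : IsCircuit (pd c₁ c₂) g) :
    (g.2 = 0 ∧ IsCircuit c₁ g.1) ∨ (g.1 = 0 ∧ IsCircuit c₂ g.2) := by
  obtain ⟨h0, h1⟩ := h
  by_cases hx : g.1 = 0
  · right
    refine ⟨hx, fun hy => h0 (Prod.ext hx hy), fun y hy hs k hk => ?_⟩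
    have h2 := h1 (0, y) (fun h3 => hy (congrArg Prod.snd h3)) ?_ (Sum.inr k) hk
    · exact h2
    · rintro (k' | k') hk'
      · exact map_zero (c₁ k')
      · exact hs k' hk'
  · left
    have hy : g.2 = 0 := by
      refine z2 g.2 fun k => ?_
      refine h1 (g.1, 0) (fun h3 => hx (congrArg Prod.fst h3)) ?_ (Sum.inr k) (map_zero (c₂ k))
      rintro (k' | k') hk'
      · exact hk'
      · exact map_zero (c₂ k')
    refine ⟨hy, hx, fun y hy' hs k hk => ?_⟩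
    have h2 := h1 (y, 0) (fun h3 => hy' (congrArg Prod.fst h3)) ?_ (Sum.inl k) hk
    · exact h2
    · rintro (k' | k') hk'
      · exact hs k' hk'
      · exact map_zero (c₂ k')

private theorem pd_step (c₁ : κ₁ → Dual K V₁) (c₂ : κ₂ → Dual K V₂) (r : κ₁ ⊕ κ₂ → K)
    (z2 : ∀ y : V₂, (∀ k, c₂ k y = 0) → y = 0) (x y : V₁ × V₂) (hx : x ∈ Poly (pd c₁ c₂) r)
    (h : Step (pd c₁ c₂) r x y) :
    (Step c₁ (fun k => r (Sum.inl k)) x.1 y.1 ∧ y.2 = x.2) ∨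
      (Step c₂ (fun k => r (Sum.inr k)) x.2 y.2 ∧ y.1 = x.1) := by
  obtain ⟨g, α, h1, h2, h3, h4, h5⟩ := h
  have hxp := (pd_poly c₁ c₂ r x).1 hx
  have hyp := (pd_poly c₁ c₂ r y).1 h4
  rcases pd_circ c₁ c₂ g z2 h1 with ⟨e, hc⟩ | ⟨e, hc⟩
  · left
    refine ⟨⟨g.1, α, hc, h2, ?_, hyp.1, fun β hβ h6 => h5 β hβ ?_⟩, ?_⟩
    · rw [h3]
      rfl
    · rw [pd_poly]
      refine ⟨h6, ?_⟩
      have : (x + β • g).2 = x.2 := by
        rw [Prod.snd_add, Prod.smul_snd, e, smul_zero, add_zero]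
      rw [this]
      exact hxp.2
    · rw [h3, Prod.snd_add, Prod.smul_snd, e, smul_zero, add_zero]
  · right
    refine ⟨⟨g.2, α, hc, h2, ?_, hyp.2, fun β hβ h6 => h5 β hβ ?_⟩, ?_⟩
    · rw [h3]
      rfl
    · rw [pd_poly]
      refine ⟨?_, h6⟩
      have : (x + β • g).1 = x.1 := by
        rw [Prod.fst_add, Prod.smul_fst, e, smul_zero, add_zero]
      rw [this]
      exact hxp.1
    · rw [h3, Prod.fst_add, Prod.smul_fst, e, smul_zero, add_zero]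

private theorem walk_snoc {V κ : Type} [AddCommGroup V] [Module K V] (c : κ → Dual K V) (r : κ → K)
    (n : ℕ) (u x y : V) (h : Walk c r n u x) (hs : Step c r x y) : Walk c r (n + 1) u y := by
  obtain ⟨z, h0, h1, h2, h3⟩ := h
  refine ⟨fun i => if i ≤ n then z i else y, ?_, ?_, h2, fun i hi => ?_⟩
  · simp [h0]
  · simp
  · rcases Nat.lt_succ_iff_lt_or_eq.1 hi with h4 | h4
    · have e1 : i ≤ n := h4.le
      have e2 : i + 1 ≤ n := h4
      simp only [e1, e2, if_true]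
      exact h3 i h4
    · subst h4
      simp only [le_refl, if_true, Nat.not_succ_le_self, if_false]
      rw [h1]
      exact hs

private theorem pd_walk (c₁ : κ₁ → Dual K V₁) (c₂ : κ₂ → Dual K V₂) (r : κ₁ ⊕ κ₂ → K)
    (z2 : ∀ y : V₂, (∀ k, c₂ k y = 0) → y = 0) (z : ℕ → V₁ × V₂) (h0 : z 0 ∈ Poly (pd c₁ c₂) r)
    (n : ℕ) (h : ∀ i < n, Step (pd c₁ c₂) r (z i) (z (i + 1))) :
    z n ∈ Poly (pd c₁ c₂) r ∧ ∃ n₁ n₂, n₁ + n₂ = n ∧
      Walk c₁ (fun k => r (Sum.inl k)) n₁ (z 0).1 (z n).1 ∧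
      Walk c₂ (fun k => r (Sum.inr k)) n₂ (z 0).2 (z n).2 := by
  induction n with
  | zero =>
    have hp := (pd_poly c₁ c₂ r (z 0)).1 h0
    exact ⟨h0, 0, 0, rfl, ⟨fun _ => (z 0).1, rfl, rfl, hp.1, fun i hi => absurd hi (Nat.not_lt_zero i)⟩,
      ⟨fun _ => (z 0).2, rfl, rfl, hp.2, fun i hi => absurd hi (Nat.not_lt_zero i)⟩⟩
  | succ n ih =>
    obtain ⟨hz, n₁, n₂, e, w1, w2⟩ := ih fun i hi => h i (Nat.lt_succ_of_lt hi)
    have hs := h n (Nat.lt_succ_self n)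
    have hz' : z (n + 1) ∈ Poly (pd c₁ c₂) r := by
      obtain ⟨g, α, -, -, -, h4, -⟩ := hs
      exact h4
    refine ⟨hz', ?_⟩
    rcases pd_step c₁ c₂ r z2 _ _ hz hs with ⟨s, e'⟩ | ⟨s, e'⟩
    · refine ⟨n₁ + 1, n₂, by omega, walk_snoc c₁ _ n₁ _ _ _ w1 s, ?_⟩
      rw [e']
      exact w2
    · refine ⟨n₁, n₂ + 1, by omega, ?_, walk_snoc c₂ _ n₂ _ _ _ w2 s⟩
      rw [e']
      exact w1

end product

theorem hPRAB : StPRAB := by
  intro K _ _ _ D1 D2 a b h1 h2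
  obtain ⟨c₁, u₁, v₁, s1, b1, w1⟩ := h1
  obtain ⟨c₂, u₂, v₂, s2, b2, w2⟩ := h2
  let φ : (Fin (D1 + D2) → K) ≃ₗ[K] (Fin D1 → K) × (Fin D2 → K) :=
    (LinearEquiv.funCongrLeft K K finSumFinEquiv).trans
      (LinearEquiv.sumArrowLequivProdArrow (Fin D1) (Fin D2) K K)
  let σ : Fin (2 * (D1 + D2)) ≃ Fin (2 * D1) ⊕ Fin (2 * D2) :=
    (finCongr (by ring)).trans finSumFinEquiv.symm
  have hs : Spindle (pd c₁ c₂) (u₁, u₂) (v₁, v₂) := pd_spindle c₁ c₂ _ _ s1 s2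
  refine ⟨tr φ σ (pd c₁ c₂), φ.symm (u₁, u₂), φ.symm (v₁, v₂), ?_, tr_bdd φ σ _ (pd_bdd c₁ c₂ b1 b2), ?_⟩
  · apply tr_spindle
    rw [φ.apply_symm_apply, φ.apply_symm_apply]
    exact hs
  · intro n hn
    have e : rhs (tr φ σ (pd c₁ c₂)) (φ.symm (u₁, u₂)) (φ.symm (v₁, v₂))
        = fun k => rhs (pd c₁ c₂) (u₁, u₂) (v₁, v₂) (σ k) := by
      funext k
      unfold rhs
      rw [tr_apply, tr_apply, φ.apply_symm_apply, φ.apply_symm_apply]
    rw [e] at hn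
    have hn' := tr_walk φ σ (pd c₁ c₂) _ n _ _ hn
    rw [φ.apply_symm_apply, φ.apply_symm_apply] at hn'
    obtain ⟨z, hz0, hzn, hp, hst⟩ := hn'
    have z2 : ∀ y : Fin D2 → K, (∀ k, c₂ k y = 0) → y = 0 := fun y hy => s2.vu y fun k _ => hy k
    have hp' : z 0 ∈ Poly (pd c₁ c₂) (rhs (pd c₁ c₂) (u₁, u₂) (v₁, v₂)) := by
      rw [hz0]
      exact hp
    obtain ⟨-, n₁, n₂, en, q1, q2⟩ :=
      pd_walk c₁ c₂ (rhs (pd c₁ c₂) (u₁, u₂) (v₁, v₂)) z2 z hp' n hst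
    rw [hz0, hzn] at q1 q2
    have a1 := w1 n₁ q1
    have a2 := w2 n₂ q2
    omega

end Pool.Agent.Helper4.CDPRAB
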