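import Pool.Agent.Helper4.CD.St2

/-!
# Project CD (MP_a41ee4_co), module TPB: transport of the bounded hypothesis (adapted from module TP by helper29)
-/

set_option autoImplicit false

namespace Pool.Agent.Helper4.CDTPB

open Pool.Agent.Helper4.CD
open Module

section

variable {K : Type} [Field K] [LinearOrder K] {V W : Type} [AddCommGroup V] [Module K V]
  [AddCommGroup W] [Module K W] {κ ι : Type}

/-- transported rows -/
private def tc (c : κ → Dual K V) (ψ : W ≃ₗ[K] V) (τ : ι ≃ κ) : ι → Dual K W :=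
  fun j => (c (τ j)).comp ψ.toLinearMap

private theorem tc_apply (c : κ → Dual K V) (ψ : W ≃ₗ[K] V) (τ : ι ≃ κ) (j : ι) (x : W) :
    tc c ψ τ j x = c (τ j) (ψ x) := rfl

private theorem poly_iff (c : κ → Dual K V) (r : κ → K) (ψ : W ≃ₗ[K] V) (τ : ι ≃ κ) (x : W) :
    x ∈ Poly (tc c ψ τ) (fun j => r (τ j)) ↔ ψ x ∈ Poly c r := by
  constructor
  · intro h k
    have h1 := h (τ.symm k)
    simp only [tc_apply, Equiv.apply_symm_apply] at h1
    exact h1
  · intro h j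
    exact h (τ j)

private theorem circ_of (c : κ → Dual K V) (ψ : W ≃ₗ[K] V) (τ : ι ≃ κ) (g : W)
    (h : IsCircuit (tc c ψ τ) g) : IsCircuit c (ψ g) := by
  refine ⟨fun h0 => h.1 ((LinearEquiv.map_eq_zero_iff ψ).1 h0), fun x hx hk k hkx => ?_⟩
  have h1 := h.2 (ψ.symm x) (fun h0 => hx ((LinearEquiv.map_eq_zero_iff ψ.symm).1 h0))
    (fun j hj => by
      rw [tc_apply, LinearEquiv.apply_symm_apply]
      exact hk _ hj) (τ.symm k) (by
      rw [tc_apply, LinearEquiv.apply_symm_apply, Equiv.apply_symm_apply]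
      exact hkx)
  rw [tc_apply, Equiv.apply_symm_apply] at h1
  exact h1

private theorem step_of (c : κ → Dual K V) (r : κ → K) (ψ : W ≃ₗ[K] V) (τ : ι ≃ κ) (x y : W)
    (h : Step (tc c ψ τ) (fun j => r (τ j)) x y) : Step c r (ψ x) (ψ y) := by
  obtain ⟨g, α, hg, hα, hy, hyP, hmax⟩ := h
  refine ⟨ψ g, α, circ_of c ψ τ g hg, hα, ?_, (poly_iff c r ψ τ y).1 hyP, fun β hβ hin => ?_⟩
  · rw [hy, map_add, map_smul]
  · refine hmax β hβ ((poly_iff c r ψ τ _).2 ?_)
    rw [map_add, map_smul]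
    exact hin

private theorem walk_of (c : κ → Dual K V) (r : κ → K) (ψ : W ≃ₗ[K] V) (τ : ι ≃ κ) (n : ℕ) (x y : W)
    (h : Walk (tc c ψ τ) (fun j => r (τ j)) n x y) : Walk c r n (ψ x) (ψ y) := by
  obtain ⟨z, h0, hn, hP, hs⟩ := h
  refine ⟨fun i => ψ (z i), congrArg ψ h0, congrArg ψ hn, (poly_iff c r ψ τ x).1 hP, fun i hi => ?_⟩
  exact step_of c r ψ τ _ _ (hs i hi)

private theorem spin_of (c : κ → Dual K V) (ψ : W ≃ₗ[K] V) (τ : ι ≃ κ) (x y : W)
    (h : Spindle c (ψ x) (ψ y)) : Spindle (tc c ψ τ) x y := by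
  refine ⟨fun j => h.ne (τ j), fun z hz => ?_, fun z hz => ?_⟩
  · refine (LinearEquiv.map_eq_zero_iff ψ).1 (h.vu (ψ z) fun k hk => ?_)
    have h1 := hz (τ.symm k) (by
      rw [tc_apply, tc_apply, Equiv.apply_symm_apply]
      exact hk)
    rw [tc_apply, Equiv.apply_symm_apply] at h1
    exact h1
  · refine (LinearEquiv.map_eq_zero_iff ψ).1 (h.vv (ψ z) fun k hk => ?_)
    have h1 := hz (τ.symm k) (by
      rw [tc_apply, tc_apply, Equiv.apply_symm_apply]
      exact hk)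
    rw [tc_apply, Equiv.apply_symm_apply] at h1
    exact h1

private theorem bdd_of (c : κ → Dual K V) (ψ : W ≃ₗ[K] V) (τ : ι ≃ κ) (h : Bdd c) : Bdd (tc c ψ τ) := by
  intro z hz
  refine (LinearEquiv.map_eq_zero_iff ψ).1 (h (ψ z) fun k => ?_)
  have h1 := hz (τ.symm k)
  rw [tc_apply, Equiv.apply_symm_apply] at h1
  exact h1

end

theorem hTPB : StTPB := by
  intro K _ _ _ hE V _ _ _ κ _ c u v hS hB hcard
  have ψ : (Fin (finrank K V) → K) ≃ₗ[K] V := (Module.finBasis K V).equivFun.symm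
  have τ : Fin (2 * finrank K V) ≃ κ := (Finite.equivFinOfCardEq hcard).symm
  have hS' : Spindle c (ψ (ψ.symm u)) (ψ (ψ.symm v)) := by
    rw [LinearEquiv.apply_symm_apply, LinearEquiv.apply_symm_apply]
    exact hS
  obtain ⟨n, hn, hw⟩ := hE (finrank K V) (tc c ψ τ) (ψ.symm u) (ψ.symm v)
    (spin_of c ψ τ _ _ hS') (bdd_of c ψ τ hB)
  have hr : rhs (tc c ψ τ) (ψ.symm u) (ψ.symm v) = fun j => rhs c u v (τ j) := by
    funext j
    simp only [rhs, tc_apply, LinearEquiv.apply_symm_apply]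
  rw [hr] at hw
  have h1 := walk_of c (rhs c u v) ψ τ n _ _ hw
  rw [LinearEquiv.apply_symm_apply, LinearEquiv.apply_symm_apply] at h1
  exact ⟨n, hn, h1⟩

end Pool.Agent.Helper4.CDTPB
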