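import Pool.Agent.Helper4.CD.Defs

/-!
# Project CD (MP_a41ee4_co): module statements with complete proofs in the docstrings
-/

set_option autoImplicit false

namespace Pool.Agent.Helper4.CD

open Module

/-- MODULE TR: a walk can be traced.
Proof. Let `z` be the walk. For `i < n` choose `g i, α` from `Step` (for `i ≥ n` anything, `g i = 0`). There is a row `k` with
`c k (g i) < 0` and `c k (z (i+1)) = r k`: otherwise every row with `c k (g i) < 0` has `r k < c k (z (i+1))`; as `κ` is finite
there is `η > 0` with `c k (z (i+1)) + η c k (g i) ≥ r k` for all `k` (rows with `c k (g i) ≥ 0` are no problem; take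
`η = min` over the rows with `c k (g i) < 0` of `(c k (z (i+1)) - r k)/(-c k (g i))`, or `η = 1` if there is none), so
`z i + (α + η) • g i ∈ Poly`, contradicting maximality. Put `h i = k` (`h i` arbitrary for `i ≥ n`; `κ` nonempty).
`z i ∈ Poly` for all `i ≤ n` (`z 0 = u`, `z (i+1)` by `Step`). -/
def StTR : Prop :=
  ∀ (K : Type) [Field K] [LinearOrder K] [IsStrictOrderedRing K] (V : Type) [AddCommGroup V] [Module K V]
    (κ : Type) [Finite κ] [Nonempty κ] (c : κ → Dual K V) (r : κ → K) (n : ℕ) (u v : V), Walk c r n u v →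
    ∃ (z g : ℕ → V) (h : ℕ → κ), z 0 = u ∧ z n = v ∧ Trace c r n z g h

/-- MODULE CL: removing the idle steps and the steps of length 0 of a lazy walk.
Proof. Induction on `n`, generalizing `z g h act`, of the stronger statement: there are `m ≤ #{i < n | act i}`, `z' : ℕ → V`,
`h' : Fin m → κ` with `z' 0 = z 0`, `z' m = z n`, all `Step c r (z' i) (z' (i+1))` (`i < m`), and
(a) for every row `k` with `c k (g l) = 0` for all `l < n` with `act l`: `c k (z' l) = c k (z 0)` for all `l ≤ m`;
(b) if `c (h i) (g l) = 0` for all `i < l < n` with `act i`, `act l`, then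
`r (h' i) < c (h' i) (z' i)` and `c (h' i) (z' l) = r (h' i)` for all `i < l ≤ m`.
`n = 0`: `m = 0`. Step: the data shifted by one (`z (· + 1)` etc.) form a lazy walk of length `n - 1`; apply the induction
hypothesis. If `¬ act 0` or the length `α` of step `0` is `0`, then `z 1 = z 0`; take the same `z'`, `h'`, `m`. If `act 0` and `α > 0`,
put `z 0` in front of `z'` and `h 0` in front of `h'` (`m` grows by one, and so does the count).
`Step c r (z 0) (z 1)`: for `β > α`, `c (h 0) (z 0 + β • g 0) = c (h 0) (z 1) + (β - α) c (h 0) (g 0) < r (h 0)`. In (b) for the new first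
row: `c (h 0) (z 0) = r (h 0) - α c (h 0) (g 0) > r (h 0)`, and `c (h 0) (z' l) = c (h 0) (z 1) = r (h 0)` by (a) for the
shifted data. `z 0 ∈ Poly` from `poly`. -/
def StCL : Prop :=
  ∀ (K : Type) [Field K] [LinearOrder K] [IsStrictOrderedRing K] (V : Type) [AddCommGroup V] [Module K V]
    (κ : Type) (c : κ → Dual K V) (r : κ → K) (n : ℕ) (act : ℕ → Prop) (z g : ℕ → V) (h : ℕ → κ),
    Lazy c r n act z g h →
    ∃ m ≤ Nat.card {i : ℕ // i < n ∧ act i}, Walk c r m (z 0) (z n) ∧
      ((∀ i l, i < l → l < n → act i → act l → c (h i) (g l) = 0) → KeepWalk c r m (z 0) (z n))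

/-- MODULE AVO: avoiding finitely many proper affine conditions near a point.
Proof. `K` is infinite. The kernels of the nonzero `A.1`, `A ∈ F`, are finitely many proper subspaces, so there is `ρ : V` with
`A.1 ρ ≠ 0` for all `A ∈ F` with `A.1 ≠ 0` (`Subspace.biUnion_ne_univ_of_top_notMem`). For each such `A` there is at most one `t : K` with
`A.1 (w₀ + t • ρ) + A.2 = 0`. Let `C = 1 + ∑ k |ψ k ρ|` (or a bound of all `|ψ k ρ|`); all `t ∈ (0, δ / C)` satisfy
`|ψ k (t • ρ)| < δ`. The interval is infinite, choose `t` in it avoiding the finitely many bad values, `w = w₀ + t • ρ`. -/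
def StAVO : Prop :=
  ∀ (K : Type) [Field K] [LinearOrder K] [IsStrictOrderedRing K] (V : Type) [AddCommGroup V] [Module K V]
    (κ : Type) [Finite κ] (ψ : κ → Dual K V) (F : Finset ((V →ₗ[K] V) × V)) (w₀ : V) (δ : K), 0 < δ →
    ∃ w : V, (∀ k, |ψ k (w - w₀)| < δ) ∧ ∀ A ∈ F, A.1 ≠ 0 → A.1 w + A.2 ≠ 0

/-- MODULE PROP: circuits with the same zero set are proportional.
Proof. There is `k` with `c k g ≠ 0` (`g ≠ 0` and the common kernel is trivial); then `c k g' ≠ 0`. Let `t = c k g' / c k g ≠ 0` and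
`x = g' - t • g`. Every row vanishing on `g` vanishes on `x`; if `x ≠ 0`, minimality of `g` says that every row vanishing on `x` vanishes on
`g`, but row `k` vanishes on `x` and not on `g`. So `x = 0`. -/
def StPROP : Prop :=
  ∀ (K : Type) [Field K] [LinearOrder K] [IsStrictOrderedRing K] (V : Type) [AddCommGroup V] [Module K V]
    (κ : Type) (c : κ → Dual K V) (g g' : V), (∀ x, (∀ k, c k x = 0) → x = 0) → IsCircuit c g → IsCircuit c g' →
    (∀ k, c k g = 0 ↔ c k g' = 0) → ∃ t : K, t ≠ 0 ∧ g' = t • g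

/-- MODULE LAM: the end point of a traced walk is a linear function of the right-hand sides, from a finite list.
Proof. For directions `g : ℕ → V` and rows `h : ℕ → κ` define linear maps `Λ i : (κ → K) →ₗ[K] V` recursively by `Λ 0 = 0`,
`Λ (i+1) ρ = Λ i ρ + φ i ρ • g i`, `φ i ρ = (ρ (h i) - c (h i) (Λ i ρ)) / c (h i) (g i)`.
For a trace and `ρ k = r k - c k (z 0)`: `z i = z 0 + Λ i ρ` for `i ≤ n`. Induction: `z (i+1) = z i + α g i` and
`c (h i) (z (i+1)) = r (h i)` give `α = (r (h i) - c (h i) (z i)) / c (h i) (g i) = φ i ρ`.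
Finiteness: `Λ i` does not change if the `g j`, `j < i`, are multiplied by nonzero scalars (`φ j` is divided by the scalar). By StPROP
circuits with the same zero set `{k | c k g = 0}` are proportional. Choose for every `Z : Set κ` a vector `rep Z`, a circuit with zero set `Z` if
there is one, `0` otherwise. So for `n ≤ N` and circuits `g i` (`i < n`), `Λ n` is the map belonging to `rep (zero set of g i)`, `h i`,
which depends only on `n` and a function `Fin N → Set κ × κ` (`κ` nonempty or `n = 0`): finitely many.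
Needs: (h1 : StPROP). -/
def StLAM : Prop :=
  ∀ (K : Type) [Field K] [LinearOrder K] [IsStrictOrderedRing K] (V : Type) [AddCommGroup V] [Module K V]
    (κ : Type) [Finite κ] (c : κ → Dual K V) (N : ℕ), (∀ x, (∀ k, c k x = 0) → x = 0) →
    ∃ S : Finset ((κ → K) →ₗ[K] V), ∀ n ≤ N, ∀ (r : κ → K) (z g : ℕ → V) (h : ℕ → κ), Trace c r n z g h →
      ∃ (Λ : ℕ → ((κ → K) →ₗ[K] V)) (φ : ℕ → Dual K (κ → K)), Λ n ∈ S ∧ Λ 0 = 0 ∧
        (∀ i < n, ∀ ρ, Λ (i + 1) ρ = Λ i ρ + φ i ρ • g i) ∧
        (∀ i < n, ∀ ρ, φ i ρ * c (h i) (g i) = ρ (h i) - c (h i) (Λ i ρ)) ∧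
        z n = z 0 + Λ n (fun k => r k - c k (z 0))

/-- MODULE GEN: generic right-hand sides. Here `B` is the set of rows tight at the end point `u + w`, and the other rows have
`r k = c k u + θ k`.
Proof. Let `S` be as in StLAM, `R x k = c k x` for `k ∈ B` and `0` otherwise (`R : V →ₗ[K] (κ → K)`), and let `F` be the finite set of the
pairs `(Λ ∘ R - 1, Λ θ)`, `Λ ∈ S`. For `u, w, r, z, g, h` as in the statement take `Λ i, φ i` from StLAM: `ρ = R w + θ` and `z n = u + w` give
`(Λ n ∘ R - 1) w + Λ n θ = 0`, so `Λ n ∘ R = 1` by the hypothesis on `w`. Put `ψ i x = φ i (R x)`. Then (telescoping)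
`x = ∑_(i<n) ψ i x • g i` for all `x`: this is the span claim. Let now `n = finrank`. The `g i`, `i < n`, span, so they are linearly
independent, and `g l = ∑_i ψ i (g l) • g i` gives `ψ i (g l) = δ_(i l)` (`i, l < n`). For `i ≤ l < n`:
`Λ i (R (g l)) = ∑_(j<i) ψ j (g l) • g j = 0`, so `δ_(i l) * c (h i) (g i) = ψ i (g l) * c (h i) (g i) = R (g l) (h i)`. For `l = i` this shows
`h i ∈ B` (otherwise `R (g i) (h i) = 0`, but `c (h i) (g i) < 0`), and for `l > i` it gives `c (h i) (g l) = R (g l) (h i) = 0`.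
Needs: (h1 : StLAM). -/
def StGEN : Prop :=
  ∀ (K : Type) [Field K] [LinearOrder K] [IsStrictOrderedRing K] (V : Type) [AddCommGroup V] [Module K V]
    [FiniteDimensional K V] (κ : Type) [Finite κ] (c : κ → Dual K V) (B : Set κ) (θ : κ → K) (N : ℕ),
    (∀ x, (∀ k, c k x = 0) → x = 0) →
    ∃ F : Finset ((V →ₗ[K] V) × V), ∀ (u w : V) (r : κ → K), (∀ k ∈ B, r k = c k u + c k w + θ k) →
      (∀ k ∉ B, r k = c k u + θ k) → (∀ A ∈ F, A.1 ≠ 0 → A.1 w + A.2 ≠ 0) →
      ∀ n ≤ N, ∀ (z g : ℕ → V) (h : ℕ → κ), Trace c r n z g h → z 0 = u → z n = u + w →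
        Submodule.span K (g '' {i | i < n}) = ⊤ ∧
        (n = finrank K V → ∀ i l, i < l → l < n → c (h i) (g l) = 0)

/-- MODULE PM: circuits of the lifted system.
Proof. (1) Pure: let `x' ≠ 0` with `c k g.1 = 0 → c k x' = 0`. Then `(x', 0) ≠ 0` and every row of `lift c f τ ε` vanishing on `g = (g.1, 0)`
vanishes on `(x', 0)` (`lift (inl k) (x, 0) = c k x`, `lift (inr m) (x, 0) = 0`), so by minimality the converse holds. `g.1 ≠ 0`.
(2) Mixed: let `Z = {k | lift c f τ ε (inl k) g = 0}`. The forms `c k`, `k ∈ Z`, have trivial common kernel: if `x₀ ≠ 0` is in it,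
`(x₀, 0)` is nonzero and every row that vanishes on `g` vanishes on `(x₀, 0)`; by minimality of `g` every row vanishing on
`(x₀, 0)`, in particular every `inr m`, vanishes on `g`, so `f m g.2 = 0` for all `m`, `g.2 = 0`, contradiction. So the span of the `c k`, `k ∈ Z`, is
the whole dual space (`V` is finite-dimensional; e.g. `Subspace.dualCoannihilator_dualAnnihilator_eq`). -/
def StPM : Prop :=
  ∀ (K : Type) [Field K] [LinearOrder K] [IsStrictOrderedRing K] (V W : Type) [AddCommGroup V] [Module K V]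
    [FiniteDimensional K V] [AddCommGroup W] [Module K W] (κ M : Type)
    (c : κ → Dual K V) (f : M → Dual K W) (τ : κ → Dual K W) (ε : K) (g : V × W),
    (∀ y, (∀ m, f m y = 0) → y = 0) → IsCircuit (lift c f τ ε) g →
    (g.2 = 0 → IsCircuit c g.1) ∧
    (g.2 ≠ 0 → Submodule.span K (c '' {k | lift c f τ ε (Sum.inl k) g = 0}) = ⊤)

/-- MODULE LIM: the limit `ε → 0` of lifted walks.
Call a step `i < n` of a lifted trace pure if `(g i).2 = 0`, mixed otherwise. `C = lift c f τ ε`.
(1) Pure steps: `(g i).1` is a circuit of `c` (StPM), and the blocking row is `h i = inl k` with `c k (g i).1 < 0` (rows `inr m` vanish on `g i`).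
(2) Mixed steps: let `Z = {k | C (inl k) (g i) = 0}`; the `c k`, `k ∈ Z`, span the dual space (StPM). For the displacement
`D = z (i+1) - z i`, a multiple of `g i`: `c k D.1 = - ε τ k D.2`, so `|c k D.1| ≤ 2 ε B` for `k ∈ Z`.
(3) Limit. For every `δ > 0` choose `n, ε, R, z, g, h`; the data `n`, `h i` (`i < n`), pure or mixed, zero sets `{s | C s (g i) = 0}`
(`i < n`) take finitely many values (encode them for `i < N`, with a default value for `i ≥ n`), so with the filter `T = 𝓝[>] 0` (topology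
`Preorder.topology K`, an `OrderTopology`, so `K` is a topological ring) there is a value that occurs frequently; let `T'` be the inf of
`T` and the principal filter of the `δ > 0` with this value (`NeBot`). All limits are along `T'`. Fix one such `δ₀` and let
`ĝ i = (g_(δ₀) i).1`, `k i` with `h i = inl (k i)` for pure `i`.
By induction on `i ≤ n` there is `x̄ i : V` with `φ ((z_δ i).1) → φ (x̄ i)` for every linear form `φ` on `V`:
`x̄ 0 = u`. Mixed `i`: `c k ((z (i+1)).1 - (z i).1) → 0` for `k ∈ Z` by (2) (`0 < ε < δ`), so `φ` of it tends to `0` for all `φ`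
(`Submodule.span_induction`): `x̄ (i+1) = x̄ i`. Pure `i`: `(g_δ i).1` and `ĝ i` are circuits of `c` with the same zero set, so proportional
(StPROP), and the factor is positive because `c (k i)` is negative on both. So `(z_δ (i+1)).1 = (z_δ i).1 + β_δ • ĝ i`, `β_δ ≥ 0`,
`β_δ = (c (k i) (z_δ (i+1)).1 - c (k i) (z_δ i).1) / c (k i) (ĝ i)`, and
`c (k i) (z_δ (i+1)).1 = R (inl (k i)) - ε τ (k i) (z_δ (i+1)).2 → r (k i)`;
so `β_δ → β = (r (k i) - c (k i) (x̄ i)) / c (k i) (ĝ i) ≥ 0` and `x̄ (i+1) = x̄ i + β • ĝ i` works.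
`x̄ i ∈ Poly c r`: `c k (z i).1 ≥ R (inl k) - ε τ k (z i).2`, limit. `x̄ n = v`: `c k ((z n).1 - v) → 0`, so `c k (x̄ n) = c k v` for all `k`.
So `x̄, ĝ, k` is a lazy walk (`act` = pure) from `u` to `v`. If `fl`, then `C (h i) (g l) = 0` for pure `i < l` means
`c (k i) (ĝ l) = 0`. Now StCL with `#pure ≤ p`.
Needs: (h1 : StCL) (h2 : StPROP) (h3 : StPM). -/
def StLIM : Prop :=
  ∀ (K : Type) [Field K] [LinearOrder K] [IsStrictOrderedRing K] (V W : Type) [AddCommGroup V] [Module K V]
    [FiniteDimensional K V] [AddCommGroup W] [Module K W] (κ M : Type) [Finite κ] [Finite M] [Nonempty κ]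
    (c : κ → Dual K V) (r : κ → K) (f : M → Dual K W) (τ : κ → Dual K W) (u v : V) (N p : ℕ) (B : K) (fl : Prop),
    (∀ x, (∀ k, c k x = 0) → x = 0) → (∀ y, (∀ m, f m y = 0) → y = 0) →
    (∀ δ : K, 0 < δ → ∃ (ε : K) (n : ℕ) (R : κ ⊕ M → K) (z g : ℕ → V × W) (h : ℕ → κ ⊕ M),
      0 < ε ∧ ε < δ ∧ n ≤ N ∧ (∀ k, |R (Sum.inl k) - r k| < δ) ∧ (z 0).1 = u ∧ (∀ k, |c k ((z n).1 - v)| < δ) ∧
      (∀ i ≤ n, ∀ k, |τ k (z i).2| ≤ B) ∧ Nat.card {i : ℕ // i < n ∧ (g i).2 = 0} ≤ p ∧
      Trace (lift c f τ ε) R n z g h ∧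
      (fl → ∀ i l, i < l → l < n → lift c f τ ε (h i) (g l) = 0)) →
    ∃ m ≤ p, Walk c r m u v ∧ (fl → KeepWalk c r m u v)

/-- MODULE BAS: choosing a basis among the rows.
Proof. The common kernel of the forms `c k`, `k ∈ A`, is trivial, so they span the dual space (finite dimension). Choose a maximal
linearly independent subfamily (`exists_linearIndependent` for the set `c '' A`, then one `k ∈ A` for each form): it is a basis of the dual,
so it has `finrank K V` elements and trivial common kernel. -/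
def StBAS : Prop :=
  ∀ (K : Type) [Field K] (V : Type) [AddCommGroup V] [Module K V] [FiniteDimensional K V] (κ : Type) [Finite κ]
    (c : κ → Dual K V) (A : Set κ), (∀ x, (∀ k ∈ A, c k x = 0) → x = 0) →
    ∃ A0 ⊆ A, Nat.card A0 = finrank K V ∧ ∀ x, (∀ k ∈ A0, c k x = 0) → x = 0

/-- MODULE LIFT: making both vertices simple.
Proof. Let `A = {k | c k u = r k}`, `B' = {k | c k v = r k}`, `E = Nei c r u v`; `κ` is the disjoint union of `A, B', E` (`u, v ∈ Poly`).
For `k ∈ A`: `c k u < c k v`; for `k ∈ B'`: `c k v < c k u`. StBAS gives `A0 ⊆ A`, `B0 ⊆ B'` with `d = finrank K V` elements each and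
trivial common kernel. Let `S = A \ A0` (`p` elements), `T = B' \ B0` (`q` elements), so `Nat.card κ = 2 d + p + q + e`.
`W = (Option S → K) × (Option T → K)`, dimension `p + q + 2`, `M = (Option S ⊕ Option T) ⊕ Bool` with forms, for `(y, w) ∈ W`:
`y_s` (`s ∈ Option S`), `w_t` (`t ∈ Option T`), `- ∑ y` (`false`), `- ∑ w` (`true`). So `Nat.card M = p + q + 4` and
`card κ + card M = 2 (d + p + q + 2) + e`. `τ k = - y_(some k)` for `k ∈ S`, `- w_(some k)` for `k ∈ T`, `0` otherwise.
`a = (1, 0)`, `b = (0, 1)` (constant functions), `B = p + q + 4` (as an element of `K`).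
`δ₀ > 0` so small that `δ₀ ≤ 1/4`, `δ₀ (p + q + 4) ≤ 1/4` and for every `k ∈ κ`: `δ₀ (2 B + 2) <` each of the positive numbers among
`|c k u - c k v|` (`k ∈ A ∪ B'`), `c k u - r k`, `c k v - r k` (`k ∈ E`). Put `u' = (u, a)`, `C = lift c f τ ε`.
`|τ k a| ≤ 1`, `|τ k v'.2| ≤ 2` (`f m b ∈ {0, 1}` for the coordinate forms).
Order facts: for `k ∈ A`: `C k u' = c k u + ε τ k a < c k v' .1 + ε τ k v'.2 = C k v'`; for `k ∈ B'` the reverse; for `k ∈ E`: `r k < C k u'`,
`r k < C k v'`. For `m ∈ M`: `y_s`: value `1` at `u'`, `< 1/4` at `v'`; `w_t`: `0` at `u'`, `> 3/4` at `v'`; `- ∑ y`: `-(p+1)` at `u'`,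
`> -1/4 ≥ ...` at `v'` (`|f m (v'.2 - b)| < δ₀` for this very row); `- ∑ w`: `0` at `u'`, `< -(q+1) + 1/4` at `v'`.
So the rows tight at `u'` (`C k u' = liftR k`) are: `k ∈ A`, `w_t`, `- ∑ y`; those tight at `v'`: `k ∈ B'`, `y_s`, `- ∑ w`; `u', v'` are feasible,
no row is tight at both, and `Nei = inl '' E`.
Vertex `u'`: let `(x, y, w)` be killed by the rows tight at `u'`. Rows in `A0` (`τ k = 0`): `x = 0`. Rows `k ∈ S`: `- ε y_k = 0`, so
`y_k = 0`; `- ∑ y = 0`: `y_none = 0`; `w = 0`. Vertex `v'` symmetrically. Bound: for a point of `Poly C (liftR ..)`: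
`y_s ≥ min 1 (v'_s) ≥ -1/4`, `∑ y ≤ p + 1` (the row `-∑ y ≥ min (-(p+1)) (..)`, the min is `-(p+1)`), so `|y_s| ≤ p + 2 + (p+1)/4 ≤ ..`: please check that
`B = 2 (p + q + 4)` is enough and take that value of `B`; similarly `w_t ≥ 0`, `∑ w ≤ ∑ v'_w ≤ q + 1 + 1/4`.
(Any `B` works for the application; take whatever is convenient.)
Needs: (h1 : StBAS). -/
def StLIFT : Prop :=
  ∀ (K : Type) [Field K] [LinearOrder K] [IsStrictOrderedRing K] (V : Type) [AddCommGroup V] [Module K V]
    [FiniteDimensional K V] (κ : Type) [Finite κ] (c : κ → Dual K V) (r : κ → K) (u v : V), Pair c r u v →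
    ∃ (W : Type) (_ : AddCommGroup W) (_ : Module K W) (_ : FiniteDimensional K W) (M : Type) (_ : Finite M)
      (f : M → Dual K W) (τ : κ → Dual K W) (a b : W) (B : K),
      (∀ y, (∀ m, f m y = 0) → y = 0) ∧ (∀ m, f m a ≠ f m b) ∧ 0 ≤ B ∧
      Nat.card κ + Nat.card M = 2 * (finrank K V + finrank K W) + Nat.card (Nei c r u v) ∧
      ∃ δ₀ : K, 0 < δ₀ ∧ ∀ (ε : K) (v' : V × W), 0 < ε → ε < δ₀ → (∀ k, |c k (v'.1 - v)| < δ₀) →
        (∀ m, |f m (v'.2 - b)| < δ₀) →
        Pair (lift c f τ ε) (liftR c f τ ε r (Nei c r u v) (u, a) v') (u, a) v' ∧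
        Nei (lift c f τ ε) (liftR c f τ ε r (Nei c r u v) (u, a) v') (u, a) v' = Sum.inl '' (Nei c r u v) ∧
        (∀ k, c k u = r k → lift c f τ ε (Sum.inl k) (u, a) < lift c f τ ε (Sum.inl k) v') ∧
        (∀ k, c k v = r k → lift c f τ ε (Sum.inl k) v' < lift c f τ ε (Sum.inl k) (u, a)) ∧
        (∀ m, f m a < f m b → f m a < f m v'.2) ∧ (∀ m, f m b < f m a → f m v'.2 < f m a) ∧
        ∀ y ∈ Poly (lift c f τ ε) (liftR c f τ ε r (Nei c r u v) (u, a) v'), ∀ k, |τ k y.2| ≤ B

/-- MODULE TP: transport of the hypothesis `HypE` to an arbitrary finite-dimensional space and index type.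
Proof. Choose a linear equivalence `V ≃ₗ[K] (Fin D → K)`, `D = finrank K V`, and a bijection `κ ≃ Fin (2 D + e)`; `Poly`, `IsCircuit`, `Step`,
`Walk`, `IsVertex`, `Pair`, `Nei` correspond. -/
def StTP : Prop :=
  ∀ (K : Type) [Field K] [LinearOrder K] [IsStrictOrderedRing K] (e : ℕ), HypE K e →
    ∀ (V : Type) [AddCommGroup V] [Module K V] [FiniteDimensional K V] (κ : Type) [Finite κ]
      (c : κ → Dual K V) (r : κ → K) (u v : V), Pair c r u v → Nat.card (Nei c r u v) = e →
      Nat.card κ = 2 * finrank K V + e → ∃ n ≤ finrank K V + e, Walk c r n u v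

/-- MODULE CORE: the main implication (done by helper4).
Needs: (h1 : StTR) (h2 : StAVO) (h3 : StGEN) (h4 : StLIM) (h5 : StLIFT) (h6 : StTP). -/
def StCORE : Prop :=
  ∀ (K : Type) [Field K] [LinearOrder K] [IsStrictOrderedRing K] (e : ℕ), HypE K e →
    ∀ (V : Type) [AddCommGroup V] [Module K V] [FiniteDimensional K V] (κ : Type) [Finite κ]
      (c : κ → Dual K V) (r : κ → K) (u v : V), Pair c r u v → Nat.card (Nei c r u v) = e →
      ∃ m ≤ finrank K V + e, Walk c r m u v ∧ (e = 0 → KeepWalk c r m u v)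

/-- MODULE PRA: the product of two spindles.
Proof. Rows: `c1 k ∘ fst` and `c2 k ∘ snd` on `V1 × V2`, apices `(u1, u2)`, `(v1, v2)`. It is a spindle. A circuit `(x, y)` of the
product has `x = 0` or `y = 0`: if `x ≠ 0`, then `(x, 0)` has support contained in that of `(x, y)`, so by minimality every row of the second
factor vanishes at `y`, so `y = 0` (`Spindle.vu` for factor 2). `(x, 0)` is a circuit iff `x` is one. A step of the product along
`(x, 0)` is a step in the first factor and leaves the second component unchanged, and conversely. So a walk of length `n` in the product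
gives walks of lengths `n1`, `n2` in the factors with `n1 + n2 = n` (prove by induction on `n`, e.g. peel off the last step).
Hence `a ≤ n1`, `b ≤ n2`. Finally transport along a linear equivalence `(Fin D1 → K) × (Fin D2 → K) ≃ₗ (Fin (D1 + D2) → K)` and
a bijection `Fin (2 * D1) ⊕ Fin (2 * D2) ≃ Fin (2 * (D1 + D2))`. -/
def StPRA : Prop :=
  ∀ (K : Type) [Field K] [LinearOrder K] [IsStrictOrderedRing K] (D1 D2 a b : ℕ),
    (∃ (c : Fin (2 * D1) → Dual K (Fin D1 → K)) (u v : Fin D1 → K), Spindle c u v ∧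
      ∀ n, Walk c (rhs c u v) n u v → a ≤ n) →
    (∃ (c : Fin (2 * D2) → Dual K (Fin D2 → K)) (u v : Fin D2 → K), Spindle c u v ∧
      ∀ n, Walk c (rhs c u v) n u v → b ≤ n) →
    ∃ (c : Fin (2 * (D1 + D2)) → Dual K (Fin (D1 + D2) → K)) (u v : Fin (D1 + D2) → K), Spindle c u v ∧
      ∀ n, Walk c (rhs c u v) n u v → a + b ≤ n

/-- MODULE PRB: the asymptotic bound implies the exact bound.
Proof. Write `LB D a` for the existence statement in StPRA. `LB 0 0` is trivial (empty rows, `u = v = 0`), `LB 1 1`: rows `x` and `-x`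
on `K^1`, `u = 0`, `v = 1`: a walk of length `0` would give `u = v`. Suppose `DStep` fails for a spindle in `K^(D₁)`: then `LB D₁ (D₁ + 1)`,
and `D₁ ≥ 1` (for `D₁ = 0`, `u = v` and the walk of length 0 exists). By StPRA and induction, `LB (k D₁ + s) (k (D₁ + 1) + s)` for all `k, s`.
Take `m = 2 D₁` in AsymDStep: `D ≥ 2 D₁`, `D = k D₁ + s`, `s < D₁`, `k ≥ 2`. The spindle from LB has a walk of some length `n` with
`2 D₁ n ≤ (2 D₁ + 1) D` and `n ≥ k (D₁ + 1) + s = D + k`. So `2 D₁ k ≤ D < (k + 1) D₁`, so `2 k < k + 1`, contradiction.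
Needs: (h1 : StPRA). -/
def StPRB : Prop :=
  ∀ (K : Type) [Field K] [LinearOrder K] [IsStrictOrderedRing K], AsymDStep K → DStep K

/-- MODULE FC: pairs with common facets.
Proof. Let `G = ⨅ ker (c k)` over the rows tight at both `u` and `v`, `κ' = {k | not tight at both}` and consider on the vector space `G` the rows
`c' k = (c k) restricted to G`, right-hand sides `r' k = r k - c k u`, and the points `0` and `v - u ∈ G`. They form a `Pair`:
`0, v - u` are feasible; if `y ∈ G` is killed by the rows of `κ'` tight at `0`, then it is killed by all rows tight at `u`, so `y = 0`; same for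
`v - u`. The set `Nei` corresponds. The hypothesis gives a walk of length `m ≤ finrank G + e`. It is mapped to a walk from `u` to `v` by
`x ↦ u + x`: a circuit `g ∈ G` of the rows `c'` is a circuit of `c`: if `x ≠ 0` and every row vanishing on `g` vanishes on `x`, then `x ∈ G`
(the common rows vanish on `g ∈ G`), so minimality in `G` applies (the common rows vanish on both). Feasibility: the common rows are
constant `= r k` on `u + G`. Maximality of steps: `u + x + β g ∈ Poly c r` iff `x + β g ∈ Poly c' r'`. -/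
def StFC : Prop :=
  ∀ (K : Type) [Field K] [LinearOrder K] [IsStrictOrderedRing K],
    (∀ (V : Type) [AddCommGroup V] [Module K V] [FiniteDimensional K V] (κ : Type) [Finite κ]
      (c : κ → Dual K V) (r : κ → K) (u v : V), Pair c r u v →
      ∃ m ≤ finrank K V + Nat.card (Nei c r u v), Walk c r m u v) → RefinedHirsch K

/-- MODULE FD: the refined bound implies the Hirsch bound.
Proof. Let `C` be the set of rows tight at both, `A` tight at `u` only, `B` tight at `v` only, `e = #Nei`; `f = #C + #A + #B + e`. With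
`G = ⨅_(k ∈ C) ker (c k)`, `g = finrank G`: `d - g ≤ #C`; the rows in `A` restricted to `G` have trivial common kernel (`u` is a vertex), so
`g ≤ #A`; similarly `g ≤ #B`. So `n + d ≤ g + e + d ≤ #C + 2 g + e ≤ f`. -/
def StFD : Prop :=
  ∀ (K : Type) [Field K] [LinearOrder K] [IsStrictOrderedRing K], RefinedHirsch K → Hirsch K

end Pool.Agent.Helper4.CD
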