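import Pool.Agent.Helper4.CD.St

/-!
# Project CD (MP_a41ee4_co), part 2: bounded polyhedra suffice
-/

set_option autoImplicit false

namespace Pool.Agent.Helper4.CD

open Module

/-- The polyhedra with rows `c` have no nonzero recession direction, i.e. they are bounded. -/
def Bdd {K : Type} [Field K] [LinearOrder K] {V : Type} [AddCommGroup V] [Module K V] {κ : Type}
    (c : κ → Dual K V) : Prop := ∀ x : V, (∀ k, 0 ≤ c k x) → x = 0

/-- The d-step bound (complementary form) for bounded polyhedra. -/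
def DStepB (K : Type) [Field K] [LinearOrder K] : Prop :=
  ∀ (D : ℕ) (c : Fin (2 * D) → Dual K (Fin D → K)) (u v : Fin D → K), Spindle c u v → Bdd c →
    ∃ n ≤ D, Walk c (rhs c u v) n u v

/-- Its asymptotic weakening: for every `m` there is some `D ≥ m` for which the bound `(1 + 1/m) D` holds for all
bounded spindles with `2 D` facets. -/
def AsymDStepB (K : Type) [Field K] [LinearOrder K] : Prop :=
  ∀ m : ℕ, ∃ D ≥ m, ∀ (c : Fin (2 * D) → Dual K (Fin D → K)) (u v : Fin D → K), Spindle c u v → Bdd c →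
    ∃ n, m * n ≤ (m + 1) * D ∧ Walk c (rhs c u v) n u v

/-- MODULE LIFTB: StLIFT with the additional conjunct that the forms `f` have no nonzero recession direction
(`y_s ≥ 0` for all `s` and `- ∑ y ≥ 0` give `y = 0`, similarly `w = 0`).
Needs: (h1 : StBAS). -/
def StLIFTB : Prop :=
  ∀ (K : Type) [Field K] [LinearOrder K] [IsStrictOrderedRing K] (V : Type) [AddCommGroup V] [Module K V]
    [FiniteDimensional K V] (κ : Type) [Finite κ] (c : κ → Dual K V) (r : κ → K) (u v : V), Pair c r u v →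
    ∃ (W : Type) (_ : AddCommGroup W) (_ : Module K W) (_ : FiniteDimensional K W) (M : Type) (_ : Finite M)
      (f : M → Dual K W) (τ : κ → Dual K W) (a b : W) (B : K),
      (∀ y, (∀ m, f m y = 0) → y = 0) ∧ (∀ y, (∀ m, 0 ≤ f m y) → y = 0) ∧ (∀ m, f m a ≠ f m b) ∧ 0 ≤ B ∧
      Nat.card κ + Nat.card M = 2 * (finrank K V + finrank K W) + Nat.card (Nei c r u v) ∧
      ∃ δ₀ : K, 0 < δ₀ ∧ ∀ (ε : K) (v' : V × W), 0 < ε → ε < δ₀ → (∀ k, |c k (v'.1 - v)| < δ₀) →
        (∀ m, |f m (v'.2 - b)| < δ₀) →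
        Pair (lift c f τ ε) (liftR c f τ ε r (Nei c r u v) (u, a) v') (u, a) v' ∧
        Nei (lift c f τ ε) (liftR c f τ ε r (Nei c r u v) (u, a) v') (u, a) v' = Sum.inl '' (Nei c r u v) ∧
        (∀ k, c k u = r k → lift c f τ ε (Sum.inl k) (u, a) < lift c f τ ε (Sum.inl k) v') ∧
        (∀ k, c k v = r k → lift c f τ ε (Sum.inl k) v' < lift c f τ ε (Sum.inl k) (u, a)) ∧
        (∀ m, f m a < f m b → f m a < f m v'.2) ∧ (∀ m, f m b < f m a → f m v'.2 < f m a) ∧
        ∀ y ∈ Poly (lift c f τ ε) (liftR c f τ ε r (Nei c r u v) (u, a) v'), ∀ k, |τ k y.2| ≤ B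

/-- MODULE TPB: transport of the hypothesis `DStepB` to an arbitrary finite-dimensional space and index type.
Proof. As in module TP (`Pool.Agent.Helper29.CD.hTP`, which may be adapted): a linear equivalence `V ≃ₗ[K] (Fin D → K)` and a bijection
`κ ≃ Fin (2 D)`; `Poly`, `IsCircuit`, `Step`, `Walk`, `Spindle`, `rhs`, `Bdd` correspond. -/
def StTPB : Prop :=
  ∀ (K : Type) [Field K] [LinearOrder K] [IsStrictOrderedRing K], DStepB K →
    ∀ (V : Type) [AddCommGroup V] [Module K V] [FiniteDimensional K V] (κ : Type) [Finite κ]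
      (c : κ → Dual K V) (u v : V), Spindle c u v → Bdd c →
      Nat.card κ = 2 * finrank K V → ∃ n ≤ finrank K V, Walk c (rhs c u v) n u v

/-- MODULE COREB: the main implication for bounded spindles (done by helper4).
Needs: (h1 : StTR) (h2 : StAVO) (h3 : StGEN) (h4 : StLIM) (h5 : StLIFTB) (h6 : StTPB). -/
def StCOREB : Prop :=
  ∀ (K : Type) [Field K] [LinearOrder K] [IsStrictOrderedRing K], DStepB K →
    ∀ (V : Type) [AddCommGroup V] [Module K V] [FiniteDimensional K V] (κ : Type) [Finite κ]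
      (c : κ → Dual K V) (u v : V), Spindle c u v → Bdd c →
      ∃ m ≤ finrank K V, KeepWalk c (rhs c u v) m u v

/-- A `KeepWalk` whose points are never farther from a facet through `v` than the point `u`. -/
def BoxWalk {K : Type} [Field K] [LinearOrder K] {V : Type} [AddCommGroup V] [Module K V] {κ : Type}
    (c : κ → Dual K V) (r : κ → K) (n : ℕ) (u v : V) : Prop :=
  ∃ (z : ℕ → V) (h : Fin n → κ), z 0 = u ∧ z n = v ∧ u ∈ Poly c r ∧
    (∀ i ≤ n, ∀ k, c k v = r k → c k (z i) ≤ c k u) ∧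
    ∀ i : Fin n, Step c r (z i) (z (i + 1)) ∧ r (h i) < c (h i) (z i) ∧
      ∀ l : ℕ, (i : ℕ) < l → l ≤ n → c (h i) (z l) = r (h i)

/-- MODULE UNB: from bounded spindles to all spindles.
Proof. Let `B' = {k // c k v < c k u}` (the rows tight at `v`) and add the rows `- c k`, `k ∈ B'`: `κ' = κ ⊕ B'`, `c' (inl k) = c k`,
`c' (inr k) = - c k`. Since `- c k u < - c k v`, the new rows are tight at `u`: `c'` is a spindle with the same apices (`vu`: the rows with
`c k u < c k v` are among those with `c' k u < c' k v`; `vv`: `inl k` for `k ∈ B'`). It is bounded: if all `0 ≤ c' k x` then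
`c k x = 0` for `k ∈ B'`, so `x = 0` by `vv`. The hypothesis gives a KeepWalk `z, h` for `c'` of length `m ≤ N`. For a step `i`,
`c' (h i) v = c' (h i) (z m) = rhs (h i) = min ..`, so `c' (h i) v ≤ c' (h i) u`, so `h i = inl k` with `c k v ≤ c k u` (for `inr k` we have
`- c k u < - c k v`); and `c k v = r k`. The circuits of `c'` and `c` coincide (`c' k g = 0` for all `k` in a set iff the same for `c`: the zero set
of `g` in `κ'` is determined by that in `κ`, since `c' (inr k) g = 0 ↔ c k g = 0`). `Poly c' ⊆ Poly c`. The step `z i → z (i+1) = z i + α g`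
is maximal for `c`: `c k (z i) > r k = c k (z (i+1))`, so `c k g < 0`, and for `β > α`, `c k (z i + β g) < r k`. `Poly c'` contains
all `z i` (`i = 0`: `u`; `i > 0` from `Step`), so `- c k (z i) ≥ - c k u` for `k ∈ B'`, i.e. the box property (a row with
`c k v = rhs k` has `c k v ≤ c k u`, so `c k v < c k u` by `ne`). -/
def StUNB : Prop :=
  ∀ (K : Type) [Field K] [LinearOrder K] [IsStrictOrderedRing K] (V : Type) [AddCommGroup V] [Module K V]
    (κ : Type) [Finite κ] (c : κ → Dual K V) (u v : V) (N : ℕ), Spindle c u v →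
    (∀ (κ' : Type) [Finite κ'] (c' : κ' → Dual K V), Spindle c' u v → Bdd c' →
      ∃ m ≤ N, KeepWalk c' (rhs c' u v) m u v) →
    ∃ m ≤ N, BoxWalk c (rhs c u v) m u v

/-- MODULE PRAB: the product of two bounded spindles.
Proof. As in module PRA (`Pool.Agent.Helper99.CD.hPRA`, which may be adapted); the product is bounded: if all rows are `≥ 0` at
`(x, y)`, then `x = 0` and `y = 0`. -/
def StPRAB : Prop :=
  ∀ (K : Type) [Field K] [LinearOrder K] [IsStrictOrderedRing K] (D1 D2 a b : ℕ),
    (∃ (c : Fin (2 * D1) → Dual K (Fin D1 → K)) (u v : Fin D1 → K), Spindle c u v ∧ Bdd c ∧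
      ∀ n, Walk c (rhs c u v) n u v → a ≤ n) →
    (∃ (c : Fin (2 * D2) → Dual K (Fin D2 → K)) (u v : Fin D2 → K), Spindle c u v ∧ Bdd c ∧
      ∀ n, Walk c (rhs c u v) n u v → b ≤ n) →
    ∃ (c : Fin (2 * (D1 + D2)) → Dual K (Fin (D1 + D2) → K)) (u v : Fin (D1 + D2) → K), Spindle c u v ∧ Bdd c ∧
      ∀ n, Walk c (rhs c u v) n u v → a + b ≤ n

/-- MODULE PRBB: the asymptotic bound implies the exact bound, bounded case.
Proof. As in module PRB (`Pool.Agent.Helper44.CD.hPRB`, which may be adapted).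
Needs: (h1 : StPRAB). -/
def StPRBB : Prop :=
  ∀ (K : Type) [Field K] [LinearOrder K] [IsStrictOrderedRing K], AsymDStepB K → DStepB K

end Pool.Agent.Helper4.CD
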